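import Pool.Agent.H234RC.T1

set_option autoImplicit false
set_option linter.unusedSectionVars false

/-!
# Twins in a graph and in its cards; the number of twin pairs is reconstructible
-/

namespace Pool.Agent.J4H89.TW

open Finset Classical
open Pool.Agent.H234RC (Hypo NonIso Reconstructible)

variable {V : Type}

/-- `x` and `y` are twins of the graph `G - S`: two different vertices outside `S` which have the same
neighbours outside `S ∪ {x, y}` (they may be adjacent or not). -/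
def Tw (G : SimpleGraph V) (S : Set V) (x y : V) : Prop :=
  x ∉ S ∧ y ∉ S ∧ x ≠ y ∧ ∀ z, z ∉ S → z ≠ x → z ≠ y → (G.Adj x z ↔ G.Adj y z)

theorem tw_symm {G : SimpleGraph V} {S : Set V} {x y : V} (h : Tw G S x y) : Tw G S y x :=
  ⟨h.2.1, h.1, h.2.2.1.symm, fun z h1 h2 h3 => (h.2.2.2 z h1 h3 h2).symm⟩

theorem tw_adj {G : SimpleGraph V} {S : Set V} {x y z : V} (h1 : Tw G S x y) (h2 : Tw G S x z)
    (hyz : y ≠ z) : (G.Adj x y ↔ G.Adj x z) ∧ (G.Adj y z ↔ G.Adj x y) := by
  have a1 := h1.2.2.2 z h2.2.1 h2.2.2.1.symm hyz.symm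
  have a2 := h2.2.2.2 y h1.2.1 h1.2.2.1.symm hyz
  rw [G.adj_comm z y] at a2
  exact ⟨a2.trans a1.symm, a2.symm⟩

theorem tw_trans {G : SimpleGraph V} {S : Set V} {x y z : V} (h1 : Tw G S x y) (h2 : Tw G S x z)
    (hyz : y ≠ z) : Tw G S y z := by
  refine ⟨h1.2.1, h2.2.1, hyz, fun w hw hwy hwz => ?_⟩
  by_cases hwx : w = x
  · subst hwx
    rw [G.adj_comm y w, G.adj_comm z w]
    exact (tw_adj h1 h2 hyz).1
  · exact (h1.2.2.2 w hw hwx hwy).symm.trans (h2.2.2.2 w hw hwx hwz)

section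

variable [Fintype V]

/-- the vertices outside `S` which distinguish `x` and `y` -/
noncomputable def D (G : SimpleGraph V) (S : Set V) (x y : V) : Finset V :=
  univ.filter (fun z => z ∉ S ∧ z ≠ x ∧ z ≠ y ∧ ¬ (G.Adj x z ↔ G.Adj y z))

/-- the pairs of vertices with a given type of adjacency, distinguished by exactly `j` vertices -/
noncomputable def A (G : SimpleGraph V) (S : Set V) (e : Prop) (j : ℕ) : ℕ :=
  (univ.filter (fun p : V × V => (p.1 ∉ S ∧ p.2 ∉ S ∧ p.1 ≠ p.2 ∧ (G.Adj p.1 p.2 ↔ e)) ∧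
    (D G S p.1 p.2).card = j)).card

/-- the twins of type `e` -/
noncomputable def T (G : SimpleGraph V) (S : Set V) (e : Prop) (x : V) : Finset V :=
  univ.filter (fun y => Tw G S x y ∧ (G.Adj x y ↔ e))

/-- the pairs distinguished by `v` only -/
noncomputable def nn (G : SimpleGraph V) (e : Prop) (v : V) : ℕ :=
  (univ.filter (fun p : V × V => (p.1 ≠ p.2 ∧ (G.Adj p.1 p.2 ↔ e)) ∧ D G ∅ p.1 p.2 = {v})).card

theorem mem_D {G : SimpleGraph V} {S : Set V} {x y z : V} :
    z ∈ D G S x y ↔ z ∉ S ∧ z ≠ x ∧ z ≠ y ∧ ¬ (G.Adj x z ↔ G.Adj y z) := by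
  unfold D; simp

theorem tw_iff {G : SimpleGraph V} {S : Set V} {x y : V} :
    Tw G S x y ↔ x ∉ S ∧ y ∉ S ∧ x ≠ y ∧ D G S x y = ∅ := by
  unfold Tw
  rw [Finset.eq_empty_iff_forall_notMem]
  constructor
  · rintro ⟨h1, h2, h3, h4⟩
    exact ⟨h1, h2, h3, fun z hz => by
      obtain ⟨a, b, c, d⟩ := mem_D.mp hz
      exact d (h4 z a b c)⟩
  · rintro ⟨h1, h2, h3, h4⟩
    refine ⟨h1, h2, h3, fun z a b c => ?_⟩
    by_contra d
    exact h4 z (mem_D.mpr ⟨a, b, c, d⟩)

theorem D_single (G : SimpleGraph V) (v x y : V) : D G {v} x y = (D G ∅ x y).erase v := by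
  ext z
  rw [mem_erase, mem_D, mem_D]
  simp only [Set.mem_singleton_iff, Set.mem_empty_iff_false, not_false_eq_true, true_and]

theorem D_comm (G : SimpleGraph V) (S : Set V) (x y : V) : D G S x y = D G S y x := by
  ext z
  rw [mem_D, mem_D]
  constructor
  · rintro ⟨a, b, c, d⟩; exact ⟨a, c, b, fun h => d h.symm⟩
  · rintro ⟨a, b, c, d⟩; exact ⟨a, c, b, fun h => d h.symm⟩

theorem mem_T {G : SimpleGraph V} {S : Set V} {e : Prop} {x y : V} :
    y ∈ T G S e x ↔ Tw G S x y ∧ (G.Adj x y ↔ e) := by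
  unfold T; simp

/-! ### The card isomorphisms -/

section hypo

variable {G H : SimpleGraph V} {π : V → Equiv.Perm V} (hH : Hypo G H π)

include hH

theorem ne_v {v x : V} (hx : x ≠ v) : π v x ≠ v := by
  intro h
  exact hx ((π v).injective (h.trans (hH.fix v).symm))

theorem ne_v' {v x : V} (hx : (π v).symm x = v) : x = v := by
  rw [Equiv.symm_apply_eq, hH.fix] at hx
  exact hx

theorem D_map {v x y : V} (hx : x ≠ v) (hy : y ≠ v) :
    D H {v} (π v x) (π v y) = (D G {v} x y).image (π v) := by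
  ext z
  rw [mem_D, mem_image]
  constructor
  · rintro ⟨h1, h2, h3, h4⟩
    have hz : (π v).symm z ≠ v := fun h => h1 (by rw [ne_v' hH h]; rfl)
    refine ⟨(π v).symm z, mem_D.mpr ⟨hz, ?_, ?_, ?_⟩, Equiv.apply_symm_apply _ _⟩
    · intro h; exact h2 (by rw [← h, Equiv.apply_symm_apply])
    · intro h; exact h3 (by rw [← h, Equiv.apply_symm_apply])
    · intro h
      apply h4
      rw [← hH.adj v x _ hx hz, ← hH.adj v y _ hy hz, Equiv.apply_symm_apply] at h
      exact h
  · rintro ⟨w, hw, rfl⟩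
    obtain ⟨h1, h2, h3, h4⟩ := mem_D.mp hw
    have hwv : w ≠ v := h1
    refine ⟨ne_v hH hwv, fun h => h2 ((π v).injective h), fun h => h3 ((π v).injective h), ?_⟩
    rw [hH.adj v x w hx hwv, hH.adj v y w hy hwv]
    exact h4

theorem tw_map {v x y : V} : Tw H {v} (π v x) (π v y) ↔ Tw G {v} x y := by
  rw [tw_iff, tw_iff]
  constructor
  · rintro ⟨h1, h2, h3, h4⟩
    have hx : x ≠ v := fun h => h1 (by rw [h, hH.fix]; rfl)
    have hy : y ≠ v := fun h => h2 (by rw [h, hH.fix]; rfl)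
    rw [D_map hH hx hy, image_eq_empty] at h4
    exact ⟨hx, hy, fun h => h3 (by rw [h]), h4⟩
  · rintro ⟨h1, h2, h3, h4⟩
    have hx : x ≠ v := h1
    have hy : y ≠ v := h2
    refine ⟨ne_v hH hx, ne_v hH hy, fun h => h3 ((π v).injective h), ?_⟩
    rw [D_map hH hx hy, h4, image_empty]

theorem A_map (e : Prop) (v : V) (j : ℕ) : A H {v} e j = A G {v} e j := by
  unfold A
  symm
  apply card_bij (fun (p : V × V) _ => (π v p.1, π v p.2))
  · intro p hp
    rw [mem_filter] at hp ⊢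
    obtain ⟨-, ⟨h1, h2, h3, h4⟩, h5⟩ := hp
    have hx : p.1 ≠ v := h1
    have hy : p.2 ≠ v := h2
    refine ⟨mem_univ _, ⟨ne_v hH hx, ne_v hH hy, fun h => h3 ((π v).injective h), ?_⟩, ?_⟩
    · rw [hH.adj v _ _ hx hy]; exact h4
    · rw [D_map hH hx hy, card_image_of_injective _ (π v).injective]; exact h5
  · intro p _ q _ h
    have h1 := (Prod.mk.inj h).1
    have h2 := (Prod.mk.inj h).2
    exact Prod.ext ((π v).injective h1) ((π v).injective h2)
  · intro q hq
    rw [mem_filter] at hq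
    obtain ⟨-, ⟨h1, h2, h3, h4⟩, h5⟩ := hq
    have hx : (π v).symm q.1 ≠ v := fun h => h1 (by rw [ne_v' hH h]; rfl)
    have hy : (π v).symm q.2 ≠ v := fun h => h2 (by rw [ne_v' hH h]; rfl)
    refine ⟨((π v).symm q.1, (π v).symm q.2), ?_, by simp⟩
    rw [mem_filter]
    refine ⟨mem_univ _, ⟨hx, hy, fun h => h3 ((π v).symm.injective h), ?_⟩, ?_⟩
    · have := hH.adj v _ _ hx hy
      rw [Equiv.apply_symm_apply, Equiv.apply_symm_apply] at this
      rw [← this]; exact h4
    · have := D_map hH hx hy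
      rw [Equiv.apply_symm_apply, Equiv.apply_symm_apply] at this
      rw [this, card_image_of_injective _ (π v).injective] at h5
      exact h5

theorem T_map (e : Prop) {v x : V} (hx : x ≠ v) : (T H {v} e (π v x)).card = (T G {v} e x).card := by
  have h1 : T H {v} e (π v x) = (T G {v} e x).image (π v) := by
    ext z
    rw [mem_T, mem_image]
    constructor
    · rintro ⟨h1, h2⟩
      have hz : (π v).symm z ≠ v := fun h => h1.2.1 (by rw [ne_v' hH h]; rfl)
      refine ⟨(π v).symm z, mem_T.mpr ⟨?_, ?_⟩, Equiv.apply_symm_apply _ _⟩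
      · rw [← tw_map hH, Equiv.apply_symm_apply]; exact h1
      · rw [← hH.adj v x _ hx hz, Equiv.apply_symm_apply]; exact h2
    · rintro ⟨w, hw, rfl⟩
      obtain ⟨h1, h2⟩ := mem_T.mp hw
      have hw : w ≠ v := h1.2.1
      exact ⟨(tw_map hH).mpr h1, by rw [hH.adj v x w hx hw]; exact h2⟩
  rw [h1, card_image_of_injective _ (π v).injective]

omit hH in
theorem hypo_symm (hH : Hypo G H π) : Hypo H G (fun v => (π v).symm) where
  fix := fun v => by rw [Equiv.symm_apply_eq, hH.fix]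
  adj := fun v x y hx hy => by
    have hx' : (π v).symm x ≠ v := fun h => hx (ne_v' hH h)
    have hy' : (π v).symm y ≠ v := fun h => hy (ne_v' hH h)
    have := hH.adj v _ _ hx' hy'
    rw [Equiv.apply_symm_apply, Equiv.apply_symm_apply] at this
    exact this.symm

end hypo

end

end Pool.Agent.J4H89.TW
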