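import Pool.Agent.J4H89.TW.Base

set_option autoImplicit false
set_option linter.unusedSectionVars false

/-!
# The number of the pairs of twins is reconstructible
-/

namespace Pool.Agent.J4H89.TW

open Finset Classical
open Pool.Agent.H234RC (Hypo NonIso Reconstructible)

variable {V : Type} [Fintype V]

theorem card_D_add (G : SimpleGraph V) {x y : V} (hxy : x ≠ y) (d : ℕ)
    (hd : (D G ∅ x y).card = d) :
    (univ.filter (fun v : V => x ≠ v ∧ y ≠ v ∧ v ∉ D G ∅ x y)).card + d + 2 = Fintype.card V := by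
  have h1 : univ.filter (fun v : V => x ≠ v ∧ y ≠ v ∧ v ∉ D G ∅ x y) =
      univ \ (D G ∅ x y ∪ {x, y}) := by
    ext v
    simp only [mem_filter, mem_univ, true_and, mem_sdiff, mem_union, mem_insert, mem_singleton,
      not_or]
    constructor
    · rintro ⟨a, b, c⟩; exact ⟨c, Ne.symm a, Ne.symm b⟩
    · rintro ⟨c, a, b⟩; exact ⟨Ne.symm a, Ne.symm b, c⟩
  have h2 : (D G ∅ x y ∪ {x, y}).card = d + 2 := by
    rw [card_union_of_disjoint, hd, card_pair hxy]
    rw [disjoint_left]
    intro z hz hz'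
    obtain ⟨-, b, c, -⟩ := mem_D.mp hz
    simp only [mem_insert, mem_singleton] at hz'
    rcases hz' with h | h
    · exact b h
    · exact c h
  rw [h1, card_sdiff_of_subset (subset_univ _), h2, card_univ]
  have h3 : (D G ∅ x y ∪ {x, y}).card ≤ Fintype.card V := card_le_univ _
  rw [h2] at h3
  omega

theorem card_ct (G : SimpleGraph V) {x y : V} (hxy : x ≠ y) (j : ℕ) :
    ((univ.filter (fun v : V => (x ≠ v ∧ y ≠ v) ∧ (D G {v} x y).card = j)).card : ℤ) =
      (if (D G ∅ x y).card = j then ((Fintype.card V : ℤ) - 2 - j) else 0) +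
      (if (D G ∅ x y).card = j + 1 then ((j : ℤ) + 1) else 0) := by
  set d := (D G ∅ x y).card with hd
  have hs : univ.filter (fun v : V => (x ≠ v ∧ y ≠ v) ∧ (D G {v} x y).card = j) =
      (univ.filter (fun v : V => x ≠ v ∧ y ≠ v ∧ v ∉ D G ∅ x y)).filter (fun _ => d = j) ∪
      (D G ∅ x y).filter (fun _ => d = j + 1) := by
    ext v
    rw [mem_union, mem_filter, mem_filter, mem_filter, mem_filter, D_single]
    by_cases hv : v ∈ D G ∅ x y
    · have hpos : 0 < d := card_pos.mpr ⟨v, hv⟩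
      have h2 := mem_D.mp hv
      rw [card_erase_of_mem hv, ← hd]
      constructor
      · rintro ⟨-, -, h⟩; exact Or.inr ⟨hv, by omega⟩
      · rintro (⟨⟨-, -, -, h⟩, -⟩ | ⟨-, h⟩)
        · exact absurd hv h
        · exact ⟨mem_univ _, ⟨Ne.symm h2.2.1, Ne.symm h2.2.2.1⟩, by omega⟩
    · rw [erase_eq_of_notMem hv, ← hd]
      constructor
      · rintro ⟨-, ⟨a, b⟩, h⟩; exact Or.inl ⟨⟨mem_univ _, a, b, hv⟩, h⟩
      · rintro (⟨⟨-, a, b, -⟩, h⟩ | ⟨h, -⟩)
        · exact ⟨mem_univ _, ⟨a, b⟩, h⟩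
        · exact absurd h hv
  rw [hs, card_union_of_disjoint]
  · have h1 := card_D_add G hxy d hd.symm
    by_cases hj : d = j
    · have hj1 : ¬ d = j + 1 := by omega
      rw [if_pos hj, if_neg hj1, filter_true_of_mem (fun _ _ => hj),
        filter_false_of_mem (fun _ _ => hj1), card_empty]
      have h2 : ((univ.filter (fun v : V => x ≠ v ∧ y ≠ v ∧ v ∉ D G ∅ x y)).card : ℤ) + d + 2 =
        Fintype.card V := by exact_mod_cast h1
      rw [hj] at h2
      push_cast
      linarith
    · by_cases hj1 : d = j + 1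
      · rw [if_neg hj, if_pos hj1, filter_true_of_mem (fun _ _ => hj1),
          filter_false_of_mem (fun _ _ => hj), card_empty, ← hd, hj1]
        push_cast
        ring
      · rw [if_neg hj, if_neg hj1, filter_false_of_mem (fun _ _ => hj1),
          filter_false_of_mem (fun _ _ => hj), card_empty]
        simp
  · rw [disjoint_left]
    intro v hv hv'
    rw [mem_filter, mem_filter] at hv
    rw [mem_filter] at hv'
    exact hv.1.2.2.2 hv'.1

/-- the sum over all cards -/
theorem sum_A (G : SimpleGraph V) (e : Prop) (j : ℕ) :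
    (∑ v : V, (A G {v} e j : ℤ)) =
      ((Fintype.card V : ℤ) - 2 - j) * A G ∅ e j + ((j : ℤ) + 1) * A G ∅ e (j + 1) := by
  set P : Finset (V × V) := univ.filter (fun p : V × V => p.1 ≠ p.2 ∧ (G.Adj p.1 p.2 ↔ e)) with hP
  have hA0 : ∀ i : ℕ, A G ∅ e i = (P.filter (fun p => (D G ∅ p.1 p.2).card = i)).card := by
    intro i
    unfold A
    congr 1
    ext p
    simp only [mem_filter, mem_univ, true_and, hP, Set.mem_empty_iff_false, not_false_eq_true]
  have hAv : ∀ v : V, A G {v} e j =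
      (P.filter (fun p => (p.1 ≠ v ∧ p.2 ≠ v) ∧ (D G {v} p.1 p.2).card = j)).card := by
    intro v
    unfold A
    congr 1
    ext p
    simp only [mem_filter, mem_univ, true_and, hP, Set.mem_singleton_iff]
    tauto
  have h1 : (∑ v : V, (A G {v} e j : ℤ)) =
      ∑ p ∈ P, ((univ.filter (fun v : V => (p.1 ≠ v ∧ p.2 ≠ v) ∧ (D G {v} p.1 p.2).card = j)).card
        : ℤ) := by
    simp_rw [hAv, card_filter]
    push_cast
    rw [sum_comm]
  rw [h1]
  have h2 : ∀ p ∈ P, ((univ.filter (fun v : V => (p.1 ≠ v ∧ p.2 ≠ v) ∧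
      (D G {v} p.1 p.2).card = j)).card : ℤ) =
      (if (D G ∅ p.1 p.2).card = j then ((Fintype.card V : ℤ) - 2 - j) else 0) +
      (if (D G ∅ p.1 p.2).card = j + 1 then ((j : ℤ) + 1) else 0) := by
    intro p hp
    rw [hP, mem_filter] at hp
    exact card_ct G hp.2.1 j
  rw [sum_congr rfl h2, sum_add_distrib, ← sum_filter, ← sum_filter, sum_const, sum_const,
    hA0 j, hA0 (j + 1)]
  simp only [nsmul_eq_mul]
  ring

theorem sum_A_le (G : SimpleGraph V) (e : Prop) (m : ℕ) :
    ∑ j ∈ range m, A G ∅ e j ≤ Fintype.card V ^ 2 := by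
  set P : Finset (V × V) := univ.filter (fun p : V × V => p.1 ≠ p.2 ∧ (G.Adj p.1 p.2 ↔ e)) with hP
  have hA0 : ∀ i : ℕ, A G ∅ e i = (P.filter (fun p => (D G ∅ p.1 p.2).card = i)).card := by
    intro i
    unfold A
    congr 1
    ext p
    simp only [mem_filter, mem_univ, true_and, hP, Set.mem_empty_iff_false, not_false_eq_true]
  simp_rw [hA0]
  rw [sum_card_fiberwise_eq_card_filter]
  calc _ ≤ P.card := card_filter_le _ _
    _ ≤ (univ : Finset (V × V)).card := card_le_card (subset_univ _)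
    _ = _ := by rw [card_univ, Fintype.card_prod]; ring

theorem two_pow_gt (n : ℕ) (hn : 10 ≤ n) : 2 * n ^ 2 < 2 ^ (n - 2) := by
  induction n, hn using Nat.le_induction with
  | base => norm_num
  | succ n hn ih =>
    have h1 : n + 1 - 2 = (n - 2) + 1 := by omega
    rw [h1, pow_succ]
    have h2 : (n + 1) ^ 2 ≤ 2 * n ^ 2 := by nlinarith
    calc 2 * (n + 1) ^ 2 ≤ 2 * (2 * n ^ 2) := Nat.mul_le_mul_left 2 h2
      _ < 2 * 2 ^ (n - 2) := (Nat.mul_lt_mul_left (by norm_num)).mpr ih
      _ = _ := by ring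

/-- **The number of the pairs of twins of each type is reconstructible.** -/
theorem A0_eq {G H : SimpleGraph V} {π : V → Equiv.Perm V} (hH : Hypo G H π)
    (hV : 10 ≤ Fintype.card V) (e : Prop) : A G ∅ e 0 = A H ∅ e 0 := by
  set N := Fintype.card V - 2 with hN
  have hNc : (N : ℤ) = (Fintype.card V : ℤ) - 2 := by
    rw [hN]
    push_cast [Nat.cast_sub (show 2 ≤ Fintype.card V by omega)]
    ring
  set δ : ℕ → ℤ := fun j => (A G ∅ e j : ℤ) - A H ∅ e j with hδ
  have hrec : ∀ j, ((N : ℤ) - j) * δ j + ((j : ℤ) + 1) * δ (j + 1) = 0 := by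
    intro j
    have h1 := sum_A G e j
    have h2 := sum_A H e j
    have h3 : (∑ v : V, (A G {v} e j : ℤ)) = ∑ v : V, (A H {v} e j : ℤ) :=
      sum_congr rfl fun v _ => by rw [A_map hH]
    rw [h1, h2] at h3
    rw [hNc, hδ]
    simp only
    linarith
  have hform : ∀ j, j ≤ N → δ j = (-1) ^ j * (N.choose j : ℤ) * δ 0 := by
    intro j
    induction j with
    | zero => intro _; simp
    | succ j ih =>
      intro hj
      have h1 := hrec j
      rw [ih (by omega)] at h1
      have h2 : ((N.choose (j + 1) : ℕ) : ℤ) * ((j : ℤ) + 1) = (N.choose j : ℤ) * ((N : ℤ) - j) := by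
        have h3 := Nat.choose_succ_right_eq N j
        have h4 : ((N - j : ℕ) : ℤ) = (N : ℤ) - j := by
          rw [Nat.cast_sub (by omega)]
        rw [← h4]
        exact_mod_cast h3
      have h5 : ((j : ℤ) + 1) ≠ 0 := by positivity
      have h6 : ((j : ℤ) + 1) * δ (j + 1) =
          ((j : ℤ) + 1) * ((-1) ^ (j + 1) * (N.choose (j + 1) : ℤ) * δ 0) := by
        have h7 : ((j : ℤ) + 1) * δ (j + 1) = -(((N : ℤ) - j) * ((-1) ^ j * (N.choose j : ℤ) * δ 0)) := by
          linarith
        rw [h7]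
        linear_combination (-1) ^ j * δ 0 * h2
      exact mul_left_cancel₀ h5 h6
  have hsum : ∑ j ∈ range (N + 1), |δ j| = 2 ^ N * |δ 0| := by
    have h1 : ∀ j ∈ range (N + 1), |δ j| = (N.choose j : ℤ) * |δ 0| := by
      intro j hj
      rw [hform j (by have := mem_range.mp hj; omega), abs_mul, abs_mul, abs_pow, abs_neg, abs_one,
        one_pow, one_mul, Nat.abs_cast]
    rw [sum_congr rfl h1, ← sum_mul]
    congr 1
    have := Nat.sum_range_choose N
    exact_mod_cast this
  have hub : ∑ j ∈ range (N + 1), |δ j| ≤ 2 * (Fintype.card V : ℤ) ^ 2 := by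
    calc ∑ j ∈ range (N + 1), |δ j|
        ≤ ∑ j ∈ range (N + 1), ((A G ∅ e j : ℤ) + A H ∅ e j) := by
          apply sum_le_sum
          intro j _
          rw [hδ, abs_le]
          simp only
          have h1 : (0 : ℤ) ≤ A G ∅ e j := Int.natCast_nonneg _
          have h2 : (0 : ℤ) ≤ A H ∅ e j := Int.natCast_nonneg _
          constructor <;> linarith
      _ ≤ _ := by
          rw [sum_add_distrib]
          have h1 := sum_A_le G e (N + 1)
          have h2 := sum_A_le H e (N + 1)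
          have h1' : (∑ j ∈ range (N + 1), (A G ∅ e j : ℤ)) ≤ (Fintype.card V : ℤ) ^ 2 := by
            exact_mod_cast h1
          have h2' : (∑ j ∈ range (N + 1), (A H ∅ e j : ℤ)) ≤ (Fintype.card V : ℤ) ^ 2 := by
            exact_mod_cast h2
          linarith
  rw [hsum] at hub
  have hpow : 2 * (Fintype.card V : ℤ) ^ 2 < 2 ^ N := by exact_mod_cast two_pow_gt _ hV
  have h0 : δ 0 = 0 := by
    by_contra hne
    have h1 : 1 ≤ |δ 0| := Int.one_le_abs hne
    have h2 : (2 : ℤ) ^ N * 1 ≤ 2 ^ N * |δ 0| := by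
      apply mul_le_mul_of_nonneg_left h1 (by positivity)
    linarith
  have : (A G ∅ e 0 : ℤ) = A H ∅ e 0 := by
    have h1 : (A G ∅ e 0 : ℤ) - A H ∅ e 0 = 0 := h0
    linarith
  exact_mod_cast this

end Pool.Agent.J4H89.TW
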