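import Pool.Agent.J4H89.TW.Full

set_option autoImplicit false
set_option linter.unusedSectionVars false

/-!
# The criterion for one pair of twins
-/

namespace Pool.Agent.J4H89.TW

open Finset Classical
open Pool.Agent.H234RC (Hypo NonIso Reconstructible)

variable {V : Type} [Fintype V]

/-- the neighbours of `v` of degree `d` -/
noncomputable def aS (G : SimpleGraph V) (v : V) (d : ℕ) : Finset V :=
  (NB G ∅ v).filter (fun z => dg G ∅ z = d)

/-- the neighbours of `x` in `G - v` of degree `d` in `G - v` -/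
noncomputable def nS (G : SimpleGraph V) (v x : V) (d : ℕ) : Finset V :=
  (NB G {v} x).filter (fun z => dg G {v} z = d)

theorem mem_aS {G : SimpleGraph V} {v z : V} {d : ℕ} :
    z ∈ aS G v d ↔ G.Adj v z ∧ dg G ∅ z = d := by
  unfold aS
  rw [mem_filter, mem_NB]
  simp

theorem mem_nS {G : SimpleGraph V} {v x z : V} {d : ℕ} :
    z ∈ nS G v x d ↔ z ≠ v ∧ G.Adj x z ∧ dg G {v} z = d := by
  unfold nS
  rw [mem_filter, mem_NB]
  simp only [Set.mem_singleton_iff]
  tauto

/-- all vertices of degree `d` in the card -/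
theorem card_split (G : SimpleGraph V) (v : V) (d : ℕ) :
    ((univ.erase v).filter (fun z => dg G {v} z = d)).card + (aS G v d).card =
      ((univ.erase v).filter (fun z => dg G ∅ z = d)).card + (aS G v (d + 1)).card := by
  set B := (univ.erase v).filter (fun z => ¬ G.Adj v z ∧ dg G ∅ z = d) with hB
  have h1 : (univ.erase v).filter (fun z => dg G {v} z = d) = B ∪ aS G v (d + 1) := by
    ext z
    rw [mem_filter, mem_union, hB, mem_filter, mem_aS, mem_erase]
    have := dg_card G v z
    rw [G.adj_comm z v] at this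
    by_cases ha : G.Adj v z
    · rw [if_pos ha] at this
      have hz : z ≠ v := ha.ne'
      simp only [ha, hz, ne_eq, not_false_eq_true, mem_univ, not_true_eq_false, false_and, and_false,
        false_or, true_and, and_self]
      omega
    · rw [if_neg ha] at this
      simp only [ha, ne_eq, mem_univ, not_false_eq_true, true_and, false_and, or_false, and_true]
      constructor
      · rintro ⟨a, b⟩; exact ⟨a, by omega⟩
      · rintro ⟨a, b⟩; exact ⟨a, by omega⟩
  have h2 : (univ.erase v).filter (fun z => dg G ∅ z = d) = B ∪ aS G v d := by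
    ext z
    rw [mem_filter, mem_union, hB, mem_filter, mem_aS, mem_erase]
    by_cases ha : G.Adj v z
    · have hz : z ≠ v := ha.ne'
      simp [ha, hz]
    · simp [ha]
  have d1 : Disjoint B (aS G v (d + 1)) := by
    rw [disjoint_left]
    intro z hz hz'
    rw [hB, mem_filter] at hz
    exact hz.2.1 (mem_aS.mp hz').1
  have d2 : Disjoint B (aS G v d) := by
    rw [disjoint_left]
    intro z hz hz'
    rw [hB, mem_filter] at hz
    exact hz.2.1 (mem_aS.mp hz').1
  rw [h1, h2, card_union_of_disjoint d1, card_union_of_disjoint d2]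
  ring

theorem M_map {G H : SimpleGraph V} {π : V → Equiv.Perm V} (hH : Hypo G H π) (v : V) (d : ℕ) :
    ((univ.erase v).filter (fun z => dg G {v} z = d)).card =
      ((univ.erase v).filter (fun z => dg H {v} z = d)).card := by
  apply card_bij (fun z _ => π v z)
  · intro z hz
    rw [mem_filter, mem_erase] at hz ⊢
    exact ⟨⟨ne_v hH hz.1.1, mem_univ _⟩, by rw [dg_map hH hz.1.1]; exact hz.2⟩
  · intro a _ b _ h; exact (π v).injective h
  · intro z hz
    rw [mem_filter, mem_erase] at hz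
    have hz' : (π v).symm z ≠ v := fun h => hz.1.1 (ne_v' hH h)
    refine ⟨(π v).symm z, ?_, Equiv.apply_symm_apply _ _⟩
    rw [mem_filter, mem_erase]
    refine ⟨⟨hz', mem_univ _⟩, ?_⟩
    rw [← dg_map hH hz', Equiv.apply_symm_apply]
    exact hz.2

/-- the numbers of the neighbours of given degree -/
theorem aS_eq {G H : SimpleGraph V} {π : V → Equiv.Perm V} (hH : Hypo G H π)
    (hV : 3 ≤ Fintype.card V) (v : V) (d : ℕ) : (aS G v d).card = (aS H v d).card := by
  induction d with
  | zero =>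
    have h : ∀ X : SimpleGraph V, (aS X v 0).card = 0 := by
      intro X
      rw [card_eq_zero, Finset.eq_empty_iff_forall_notMem]
      intro z hz
      obtain ⟨h1, h2⟩ := mem_aS.mp hz
      have := card_pos.mpr ⟨v, (mem_NB (G := X) (S := ∅) (x := z)).mpr ⟨notMem_empty v, h1.symm⟩⟩
      unfold dg at h2
      omega
    rw [h, h]
  | succ d ih =>
    have h1 := card_split G v d
    have h2 := card_split H v d
    have h3 := M_map hH v d
    have h4 : ((univ.erase v).filter (fun z => dg G ∅ z = d)).card =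
        ((univ.erase v).filter (fun z => dg H ∅ z = d)).card := by
      congr 1
      ext z
      rw [mem_filter, mem_filter, dg_eq hH hV]
    omega

theorem nS_map {G H : SimpleGraph V} {π : V → Equiv.Perm V} (hH : Hypo G H π) {v x : V} (hx : x ≠ v)
    (d : ℕ) : (nS H v (π v x) d).card = (nS G v x d).card := by
  symm
  apply card_bij (fun z _ => π v z)
  · intro z hz
    rw [mem_nS] at hz ⊢
    exact ⟨ne_v hH hz.1, by rw [hH.adj v x z hx hz.1]; exact hz.2.1, by
      rw [dg_map hH hz.1]; exact hz.2.2⟩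
  · intro a _ b _ h; exact (π v).injective h
  · intro z hz
    rw [mem_nS] at hz
    have hz' : (π v).symm z ≠ v := fun h => hz.1 (ne_v' hH h)
    refine ⟨(π v).symm z, ?_, Equiv.apply_symm_apply _ _⟩
    rw [mem_nS]
    refine ⟨hz', ?_, ?_⟩
    · rw [← hH.adj v x _ hx hz', Equiv.apply_symm_apply]; exact hz.2.1
    · rw [← dg_map hH hz', Equiv.apply_symm_apply]; exact hz.2.2

theorem nS_twin {G : SimpleGraph V} {v t : V} (h : Tw G ∅ v t) (d : ℕ) :
    (nS G v t d).card + (if G.Adj v t ∧ dg G ∅ v = d + 1 then 1 else 0) = (aS G v (d + 1)).card := by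
  have h1 : nS G v t d = (aS G v (d + 1)).erase t := by
    ext z
    rw [mem_nS, mem_erase, mem_aS]
    have h2 := dg_card G v z
    rw [G.adj_comm z v] at h2
    constructor
    · rintro ⟨a, b, c⟩
      have hzt : z ≠ t := b.ne'
      have hvz : G.Adj v z := (h.2.2.2 z (notMem_empty z) a hzt).mpr b
      rw [if_pos hvz] at h2
      exact ⟨hzt, hvz, by omega⟩
    · rintro ⟨a, b, c⟩
      have hzv : z ≠ v := b.ne'
      rw [if_pos b] at h2
      exact ⟨hzv, (h.2.2.2 z (notMem_empty z) hzv a).mp b, by omega⟩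
  rw [h1]
  split_ifs with hc
  · have ht : t ∈ aS G v (d + 1) := mem_aS.mpr ⟨hc.1, by rw [← dg_tw h]; exact hc.2⟩
    rw [card_erase_of_mem ht]
    have := card_pos.mpr ⟨t, ht⟩
    omega
  · rw [erase_eq_of_notMem]
    · rfl
    · intro ht
      obtain ⟨a, b⟩ := mem_aS.mp ht
      exact hc ⟨a, by rw [dg_tw h]; exact b⟩

theorem T_other {G : SimpleGraph V} {S : Set V} {x t : V} {e : Prop} (ht : Tw G S x t)
    (he : ¬ (G.Adj x t ↔ e)) : T G S e x = ∅ := by
  rw [Finset.eq_empty_iff_forall_notMem]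
  intro y hy
  have hy' := mem_T.mp hy
  by_cases hty : t = y
  · rw [hty] at he; exact he hy'.2
  · exact he (((tw_adj ht hy'.1 hty).1).trans hy'.2)

/-- the twins of a twin of `v` in the card at `v` -/
theorem T_twin {G : SimpleGraph V} {v t : V} (h : Tw G ∅ v t)
    (hno : ∀ x y, x ≠ y → D G ∅ x y ≠ {v}) (e : Prop) :
    (T G {v} e t).card = if (G.Adj v t ↔ e) then (K G ∅ v).card - 1 else 0 := by
  have htv : t ≠ v := h.2.2.1.symm
  have hK : ∀ y, y ∈ K G {v} t ↔ y ∈ (K G ∅ v).erase t := by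
    intro y
    rw [K_single htv (fun y hy => hno _ _ hy.symm), mem_erase, mem_erase, mem_K, mem_K]
    constructor
    · rintro ⟨a, b⟩
      exact ⟨b.2.2.1.symm, tw_trans (tw_symm h) b a.symm⟩
    · rintro ⟨a, b⟩
      exact ⟨b.2.2.1.symm, tw_trans h b a.symm⟩
  have hKe : K G {v} t = (K G ∅ v).erase t := by ext y; exact hK y
  have hmem : t ∈ K G ∅ v := mem_K.mpr h
  split_ifs with he
  · have h1 : T G {v} e t = K G {v} t := by
      apply Subset.antisymm (T_sub_K _ _ _ _)
      intro y hy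
      refine mem_T.mpr ⟨mem_K.mp hy, ?_⟩
      rw [hK, mem_erase, mem_K] at hy
      have h2 := (tw_adj h hy.2 (Ne.symm hy.1)).2
      exact h2.trans he
    rw [h1, hKe, card_erase_of_mem hmem]
  · rw [card_eq_zero, Finset.eq_empty_iff_forall_notMem]
    intro y hy
    have hy' := mem_T.mp hy
    have hyK : y ∈ K G {v} t := mem_K.mpr hy'.1
    rw [hK, mem_erase, mem_K] at hyK
    have h2 := (tw_adj h hyK.2 (Ne.symm hyK.1)).2
    exact he (h2.symm.trans hy'.2)

theorem nn_ne {G : SimpleGraph V} {v x y : V} {e : Prop} (hxy : x ≠ y) (he : G.Adj x y ↔ e)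
    (hD : D G ∅ x y = {v}) : nn G e v ≠ 0 := by
  have : 0 < nn G e v := by
    unfold nn
    rw [card_pos]
    exact ⟨(x, y), by rw [mem_filter]; exact ⟨mem_univ _, ⟨hxy, he⟩, hD⟩⟩
  omega

theorem nn_no {G : SimpleGraph V} {v : V} (h1 : nn G True v = 0) (h2 : nn G False v = 0) (x y : V)
    (hxy : x ≠ y) : D G ∅ x y ≠ {v} := by
  intro hD
  by_cases ha : G.Adj x y
  · exact nn_ne hxy (by simp [ha]) hD h1
  · exact nn_ne hxy (by simp [ha]) hD h2

theorem no_nn {G : SimpleGraph V} {v : V} (h : ∀ x y, x ≠ y → D G ∅ x y ≠ {v}) (e : Prop) :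
    nn G e v = 0 := by
  by_contra hne
  obtain ⟨x, y, hxy, -, hD⟩ := nn_pos hne
  exact h x y hxy hD

/-- what is seen of `x` in the card at `v` -/
def Same (G : SimpleGraph V) (v x y : V) : Prop :=
  (T G {v} True x).card = (T G {v} True y).card ∧
  (T G {v} False x).card = (T G {v} False y).card ∧
  ∀ d : ℕ, (nS G v x d).card = (nS G v y d).card

/-- **The criterion.** -/
theorem crit {G H : SimpleGraph V} {π : V → Equiv.Perm V} (hH : Hypo G H π)
    (hV : 10 ≤ Fintype.card V) {v v' : V} (htw : Tw G ∅ v v')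
    (hno : ∀ x y, x ≠ y → D G ∅ x y ≠ {v})
    (hQ : ∀ x, x ≠ v → Same G v x v' → ∃ σ : Equiv.Perm V, σ v = v ∧ σ v' = x ∧
      ∀ y z, y ≠ v → z ≠ v → (G.Adj (σ y) (σ z) ↔ G.Adj y z)) : ¬ NonIso G H := by
  set e := G.Adj v v' with he
  have hTK : T G ∅ e v = K G ∅ v := T_eq_K htw Iff.rfl
  have hKpos : 1 ≤ (K G ∅ v).card := card_pos.mpr ⟨v', mem_K.mpr htw⟩
  have hk := key hH hV e v
  rw [no_nn hno e, hTK] at hk
  have hne : T G ∅ (¬ e) v = ∅ := T_other htw (by rw [← he]; tauto)
  have hk' := key hH hV (¬ e) v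
  rw [no_nn hno (¬ e), hne, card_empty] at hk'
  obtain ⟨q, hq⟩ := card_pos.mp (show 0 < (T H ∅ e v).card by omega)
  have hq' := mem_T.mp hq
  have hTKH : T H ∅ e v = K H ∅ v := T_eq_K hq'.1 hq'.2
  have hneH : T H ∅ (¬ e) v = ∅ := T_other hq'.1 (by rw [hq'.2]; tauto)
  rw [hneH, card_empty] at hk'
  have hnn' : nn H (¬ e) v = 0 := by omega
  rw [hTKH] at hk
  have hnn : nn H e v = 0 ∧ (K H ∅ v).card = (K G ∅ v).card := by
    by_cases h2 : 2 ≤ (K H ∅ v).card
    · exact ⟨nn_zero h2 e, (K_eq (hypo_symm hH) hV h2).symm⟩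
    · omega
  have hnoH : ∀ x y, x ≠ y → D H ∅ x y ≠ {v} := by
    by_cases hee : e
    · have e1 : e = True := propext ⟨fun _ => trivial, fun _ => hee⟩
      rw [e1] at hnn hnn'
      have e2 : (¬ True) = False := by simp
      rw [e2] at hnn'
      exact nn_no hnn.1 hnn'
    · have e1 : e = False := propext ⟨fun h => hee h, fun h => h.elim⟩
      rw [e1] at hnn hnn'
      have e2 : (¬ False) = True := by simp
      rw [e2] at hnn'
      exact nn_no hnn' hnn.1
  have hqv : q ≠ v := hq'.1.2.2.1.symm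
  set x := (π v).symm q with hx
  have hxv : x ≠ v := fun h => hqv (ne_v' hH h)
  have hπx : π v x = q := Equiv.apply_symm_apply _ _
  have hT : ∀ c : Prop, (T G {v} c x).card = (T G {v} c v').card := by
    intro c
    have h1 := T_map hH c hxv
    rw [hπx, T_twin hq'.1 hnoH c, hnn.2] at h1
    rw [← h1, T_twin htw hno c]
    by_cases hc : (e ↔ c)
    · rw [if_pos (hq'.2.trans hc), if_pos hc]
    · rw [if_neg (fun h => hc (hq'.2.symm.trans h)), if_neg hc]
  have hN : ∀ d, (nS G v x d).card = (nS G v v' d).card := by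
    intro d
    have h1 := nS_map hH hxv d
    rw [hπx] at h1
    have h2 := nS_twin hq'.1 d
    have h3 := nS_twin htw d
    have h4 := aS_eq hH (by omega) v (d + 1)
    have h5 := dg_eq hH (by omega) v
    have h6 : (H.Adj v q ∧ dg H ∅ v = d + 1) ↔ (G.Adj v v' ∧ dg G ∅ v = d + 1) := by
      rw [h5, hq'.2]
    by_cases hc : G.Adj v v' ∧ dg G ∅ v = d + 1
    · rw [if_pos (h6.mpr hc)] at h2
      rw [if_pos hc] at h3
      omega
    · rw [if_neg (fun h => hc (h6.mp h))] at h2
      rw [if_neg hc] at h3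
      omega
  obtain ⟨σ, hσ1, hσ2, hσ3⟩ := hQ x hxv ⟨hT True, hT False, hN⟩
  refine glue (τ := σ.trans (π v)) (v := v) (v' := v') (q := q) ?_ ?_ ?_ htw hq'.1 hq'.2
  · rw [Equiv.trans_apply, hσ1, hH.fix]
  · rw [Equiv.trans_apply, hσ2, hπx]
  · intro y z hy hz
    rw [Equiv.trans_apply, Equiv.trans_apply, ← hσ3 y z hy hz]
    apply hH.adj
    · intro h; exact hy (σ.injective (h.trans hσ1.symm))
    · intro h; exact hz (σ.injective (h.trans hσ1.symm))

/-- **Sizes.** -/
theorem sizes {G H : SimpleGraph V} {π : V → Equiv.Perm V} (hH : Hypo G H π)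
    (hV : 10 ≤ Fintype.card V) {e : Prop} {k : ℕ} (hk : 2 ≤ k)
    (hex : ∃ v, (T G ∅ e v).card = k) (hnone : ∀ x, (T G ∅ e x).card ≠ k - 1) : ¬ NonIso G H := by
  obtain ⟨v, hv⟩ := hex
  obtain ⟨v', hv'⟩ := card_pos.mp (show 0 < (T G ∅ e v).card by omega)
  have hv'' := mem_T.mp hv'
  have hTK : T G ∅ e v = K G ∅ v := T_eq_K hv''.1 hv''.2
  have h2 : 2 ≤ (K G ∅ v).card := by rw [← hTK]; omega
  refine crit hH hV hv''.1 (fun x y hxy => no_only h2 hxy) (fun x hx hS => ?_)
  have hT : (T G {v} e x).card = k - 1 := by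
    have h3 : (T G {v} e x).card = (T G {v} e v').card := by
      by_cases hee : e
      · have e1 : e = True := propext ⟨fun _ => trivial, fun _ => hee⟩
        rw [e1]; exact hS.1
      · have e1 : e = False := propext ⟨fun h => hee h, fun h => h.elim⟩
        rw [e1]; exact hS.2.1
    rw [h3, T_twin hv''.1 (fun x y hxy => no_only h2 hxy) e, if_pos hv''.2, ← hTK, hv]
  by_cases hxv' : x = v'
  · exact ⟨Equiv.refl V, rfl, hxv'.symm, fun _ _ _ _ => Iff.rfl⟩
  · by_cases hxK : x ∈ K G ∅ v
    · have h3 := tw_trans hv''.1 (mem_K.mp hxK) (Ne.symm hxv')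
      refine ⟨Equiv.swap v' x, ?_, Equiv.swap_apply_left _ _, fun y z _ _ =>
        swap_auto h3 y z (notMem_empty y) (notMem_empty z)⟩
      exact Equiv.swap_apply_of_ne_of_ne hv''.1.2.2.1 hx.symm
    · exfalso
      apply hnone x
      rw [← hT]
      congr 1
      ext y
      rw [mem_T, mem_T]
      constructor
      · rintro ⟨a, b⟩
        have hyv : y ≠ v := by
          rintro rfl
          exact hxK (mem_K.mpr (tw_symm a))
        exact ⟨tw_single hx hyv a, b⟩
      · rintro ⟨a, b⟩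
        exact ⟨tw_of_single a (no_only h2 a.2.2.1), b⟩

end Pool.Agent.J4H89.TW
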