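import Pool.Agent.J4H89.TW.Crit

set_option autoImplicit false
set_option linter.unusedSectionVars false

/-!
# Twins and the reconstruction conjecture

Two vertices `v`, `w` of a graph are *twins* when every other vertex is adjacent to both or to
neither of them (`Tw G ∅ v w`).  Let `G` have at least ten vertices.  Then `G` is reconstructible
from its cards in each of the cases

* (1) some vertex `v` has a twin `v'`, no two vertices are distinguished by `v` only, and every
  vertex `x` of the card `G - v` at which the same is seen as at `v'` (numbers of adjacent twins, of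
  non-adjacent twins and of the neighbours of each degree, all in `G - v`) is the image of `v'`
  under an automorphism of `G - v`;
* (2) for one of the two types of twins some vertex has exactly `k ≥ 2` twins of that type, and no
  vertex has exactly `k - 1`;
* (3) every vertex has a twin.
-/

namespace Pool.Agent.J4H89.TW

open Finset Classical
open Pool.Agent.H234RC (Hypo NonIso Reconstructible)

/-- **Twins.** -/
theorem t_TW {V : Type} [Fintype V] (G : SimpleGraph V) (hV : 10 ≤ Fintype.card V) :
    (∀ v v' : V, Tw G ∅ v v' → (∀ x y, x ≠ y → D G ∅ x y ≠ {v}) →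
      (∀ x, x ≠ v → Same G v x v' → ∃ σ : Equiv.Perm V, σ v = v ∧ σ v' = x ∧
        ∀ y z, y ≠ v → z ≠ v → (G.Adj (σ y) (σ z) ↔ G.Adj y z)) →
      Reconstructible G) ∧
    (∀ (e : Prop) (k : ℕ), 2 ≤ k → (∃ v, (T G ∅ e v).card = k) →
      (∀ x, (T G ∅ e x).card ≠ k - 1) → Reconstructible G) ∧
    ((∀ x, ∃ y, Tw G ∅ x y) → Reconstructible G) := by
  refine ⟨fun v v' htw hno hQ => ?_, fun e k hk hex hnone => ?_, fun hall => ?_⟩
  · by_contra hcon
    obtain ⟨H, π, hH, hN⟩ := Pool.Agent.H234RC.exists_hypo G hcon
    exact crit hH hV htw hno hQ hN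
  · by_contra hcon
    obtain ⟨H, π, hH, hN⟩ := Pool.Agent.H234RC.exists_hypo G hcon
    exact sizes hH hV hk hex hnone hN
  · by_contra hcon
    obtain ⟨H, π, hH, hN⟩ := Pool.Agent.H234RC.exists_hypo G hcon
    refine full_iso hH hV (fun x => ?_) hN
    obtain ⟨y, hy⟩ := hall x
    exact ⟨y, mem_K.mpr hy⟩

end Pool.Agent.J4H89.TW
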