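import Pool.Agent.J4H89.TW.Map

set_option autoImplicit false
set_option linter.unusedSectionVars false

/-!
# Graphs in which every vertex has a twin
-/

namespace Pool.Agent.J4H89.TW

open Finset Classical
open Pool.Agent.H234RC (Hypo NonIso Reconstructible)

variable {V : Type} [Fintype V]

theorem A_zero (G : SimpleGraph V) (e : Prop) : A G ∅ e 0 =
    (univ.filter (fun p : V × V => p.1 ≠ p.2 ∧ (G.Adj p.1 p.2 ↔ e) ∧ D G ∅ p.1 p.2 = ∅)).card := by
  unfold A
  congr 1
  ext p
  simp only [mem_filter, mem_univ, true_and, Set.mem_empty_iff_false, not_false_eq_true,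
    card_eq_zero]
  tauto

theorem A0_sum (G : SimpleGraph V) (e : Prop) : A G ∅ e 0 = ∑ v : V, (T G ∅ e v).card := by
  have h1 : A G ∅ e 0 = ((univ : Finset V).sigma (fun v => T G ∅ e v)).card := by
    rw [A_zero]
    apply card_bij (fun (p : V × V) _ => (⟨p.1, p.2⟩ : Σ _ : V, V))
    · intro p hp
      rw [mem_filter] at hp
      rw [mem_sigma, mem_T]
      exact ⟨mem_univ _, tw_of_D hp.2.1 hp.2.2.2, hp.2.2.1⟩
    · intro p _ q _ h
      have h1 := congrArg Sigma.fst h
      have h2 : p.2 = q.2 := by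
        have := Sigma.mk.inj h
        exact eq_of_heq this.2
      exact Prod.ext h1 h2
    · rintro ⟨x, y⟩ h
      rw [mem_sigma, mem_T] at h
      refine ⟨(x, y), ?_, rfl⟩
      rw [mem_filter]
      exact ⟨mem_univ _, h.2.1.2.2.1, h.2.2, D_of_tw h.2.1⟩
  rw [h1, card_sigma]

theorem K_sum {G H : SimpleGraph V} {π : V → Equiv.Perm V} (hH : Hypo G H π)
    (hV : 10 ≤ Fintype.card V) : ∑ v : V, (K G ∅ v).card = ∑ v : V, (K H ∅ v).card := by
  simp_rw [← T_add]
  rw [sum_add_distrib, sum_add_distrib, ← A0_sum, ← A0_sum, ← A0_sum, ← A0_sum, A0_eq hH hV,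
    A0_eq hH hV]

theorem K_eq {G H : SimpleGraph V} {π : V → Equiv.Perm V} (hH : Hypo G H π)
    (hV : 10 ≤ Fintype.card V) {v : V} (h : 2 ≤ (K G ∅ v).card) :
    (K H ∅ v).card = (K G ∅ v).card := by
  obtain ⟨t, ht⟩ := card_pos.mp (show 0 < (K G ∅ v).card by omega)
  have ht' := mem_K.mp ht
  have h1 : T G ∅ (G.Adj v t) v = K G ∅ v := T_eq_K ht' Iff.rfl
  have h2 := T_eq (e := G.Adj v t) hH hV (by rw [h1]; exact h)
  rw [h1] at h2
  obtain ⟨u, hu⟩ := card_pos.mp (show 0 < (T H ∅ (G.Adj v t) v).card by omega)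
  have hu' := mem_T.mp hu
  rw [T_eq_K hu'.1 hu'.2] at h2
  exact h2

theorem full_of_full {G H : SimpleGraph V} {π : V → Equiv.Perm V} (hH : Hypo G H π)
    (hV : 10 ≤ Fintype.card V) (hG : ∀ x, (K G ∅ x).Nonempty) : ∀ x, (K H ∅ x).Nonempty := by
  have hle : ∀ v ∈ (univ : Finset V), (K H ∅ v).card ≤ (K G ∅ v).card := by
    intro v _
    by_cases h : 2 ≤ (K H ∅ v).card
    · exact (K_eq (hypo_symm hH) hV h).ge
    · have := card_pos.mpr (hG v)
      omega
  have heq := (sum_eq_sum_iff_of_le hle).mp (K_sum hH hV).symm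
  intro x
  rw [← card_pos, heq x (mem_univ x)]
  exact card_pos.mpr (hG x)

theorem no_only {G : SimpleGraph V} {v : V} (h : 2 ≤ (K G ∅ v).card) {x y : V} (hxy : x ≠ y) :
    D G ∅ x y ≠ {v} := by
  intro hD
  obtain ⟨t, ht, t', ht', htt⟩ := one_lt_card.mp h
  exact htt (twin_unique hxy hD (mem_K.mp ht) (mem_K.mp ht'))

theorem tw_single {G : SimpleGraph V} {v x y : V} (hx : x ≠ v) (hy : y ≠ v) (h : Tw G ∅ x y) :
    Tw G {v} x y :=
  ⟨hx, hy, h.2.2.1, fun z _ h2 h3 => h.2.2.2 z (notMem_empty z) h2 h3⟩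

theorem tw_of_single {G : SimpleGraph V} {v x y : V} (h : Tw G {v} x y) (hD : D G ∅ x y ≠ {v}) :
    Tw G ∅ x y := by
  have h1 := D_of_tw h
  rw [D_single] at h1
  apply tw_of_D h.2.2.1
  by_cases hv : v ∈ D G ∅ x y
  · exfalso
    apply hD
    rw [← insert_erase hv, h1]
    rfl
  · rwa [erase_eq_of_notMem hv] at h1

/-- the twins in the card, if no pair with `x` is distinguished by `v` only -/
theorem K_single {G : SimpleGraph V} {v x : V} (hx : x ≠ v)
    (hD : ∀ y, y ≠ x → D G ∅ x y ≠ {v}) : K G {v} x = (K G ∅ x).erase v := by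
  ext y
  rw [mem_K, mem_erase, mem_K]
  constructor
  · intro h
    exact ⟨h.2.1, tw_of_single h (hD y h.2.2.1.symm)⟩
  · rintro ⟨h1, h2⟩
    exact tw_single hx h1 h2

/-- a satellite stays one, unless its class or the whole centre is touched -/
theorem core {G H : SimpleGraph V} {π : V → Equiv.Perm V} (hH : Hypo G H π)
    (hV : 10 ≤ Fintype.card V) (hfG : ∀ x, (K G ∅ x).Nonempty) (hfH : ∀ x, (K H ∅ x).Nonempty)
    (v : V) (hv : ¬ Sat G ∅ v) (hmin : ∀ q, ¬ Sat H ∅ q → (K G ∅ v).card ≤ (K H ∅ q).card) :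
    ¬ NonIso G H := by
  obtain ⟨v', hv'K⟩ := hfG v
  have hv' := mem_K.mp hv'K
  have hvv' : v' ≠ v := hv'.2.2.1.symm
  have hns' : ¬ Sat G ∅ v' := fun h => hv (sat_class (tw_symm hv') h)
  -- no merging
  have hD' : ∀ y, y ≠ v' → D G ∅ v' y ≠ {v} := by
    intro y hy hD
    apply hns'
    refine ⟨y, notMem_empty y, hy, ?_, ?_⟩
    · intro h
      rw [D_of_tw h] at hD
      exact (singleton_ne_empty v) hD.symm
    · rw [hD]
      ext t
      rw [mem_singleton, mem_K]
      constructor
      · rintro rfl; exact tw_symm hv'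
      · intro ht
        by_contra hne
        have h1 := tw_trans (tw_symm hv') ht (Ne.symm hne)
        exact ht.2.2.1 (twin_unique hy.symm hD hv' h1)
  have hK' : K G {v} v' = (K G ∅ v').erase v := K_single hvv' hD'
  have hKc : (K G ∅ v').card = (K G ∅ v).card := by
    have := gK_map (H := G) (swap_mem hv'.1 hv'.2.1) (swap_auto hv') v
    rw [Equiv.swap_apply_left] at this
    rw [this, card_image_of_injective _ (Equiv.injective _)]
  have hmem : v ∈ K G ∅ v' := mem_K.mpr (tw_symm hv')
  have hKc' : (K G {v} v').card + 1 = (K G ∅ v).card := by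
    rw [hK', card_erase_of_mem hmem, hKc]
    have := card_pos.mpr (hfG v)
    omega
  -- not a satellite in the card
  have hnc : ¬ Sat G {v} v' := by
    rintro ⟨y, hyv, hy, hny, hD⟩
    rw [hK', D_single] at hD
    have hyv' : y ≠ v := hyv
    have hvD : v ∈ D G ∅ v' y := by
      by_cases hne : ((K G ∅ v').erase v).Nonempty
      · obtain ⟨p, hp⟩ := hne
        have hpD : p ∈ (D G ∅ v' y).erase v := by rw [hD]; exact hp
        obtain ⟨hpv, hpD⟩ := mem_erase.mp hpD
        obtain ⟨-, hpK⟩ := mem_erase.mp hp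
        have hp' := mem_K.mp hpK
        obtain ⟨-, h1, h2, h3⟩ := mem_D.mp hpD
        have hvp := tw_trans (tw_symm hv') hp' (Ne.symm hpv)
        refine mem_D.mpr ⟨notMem_empty v, hvv'.symm, hyv'.symm, ?_⟩
        have a1 := (tw_adj (tw_symm hv') hp' (Ne.symm hpv)).1
        have a2 := hvp.2.2.2 y (notMem_empty y) hyv' h2.symm
        rw [a1, G.adj_comm y v, a2, G.adj_comm p y]
        exact h3
      · rw [not_nonempty_iff_eq_empty] at hne
        rw [hne] at hD
        by_contra hvD
        rw [erase_eq_of_notMem hvD] at hD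
        exact hny (tw_single hvv' hyv' (tw_of_D hy.symm hD))
    have hfull : D G ∅ v' y = K G ∅ v' := by
      rw [← insert_erase hvD, hD, insert_erase hmem]
    apply hns'
    refine ⟨y, notMem_empty y, hy, ?_, hfull⟩
    intro h
    rw [D_of_tw h] at hvD
    simp at hvD
  -- transfer
  have hSv : ∀ x, π v x ∈ ({v} : Set V) ↔ x ∈ ({v} : Set V) := by
    intro x
    simp only [Set.mem_singleton_iff]
    constructor
    · intro h
      by_contra hx
      exact ne_v hH hx h
    · rintro rfl; exact hH.fix x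
  have hSv' : ∀ x, (π v).symm x ∈ ({v} : Set V) ↔ x ∈ ({v} : Set V) := by
    intro x
    have := hSv ((π v).symm x)
    rw [Equiv.apply_symm_apply] at this
    exact this.symm
  have hadj : ∀ x y, x ∉ ({v} : Set V) → y ∉ ({v} : Set V) →
      (H.Adj (π v x) (π v y) ↔ G.Adj x y) := fun x y hx hy => hH.adj v x y hx hy
  have hadj' : ∀ x y, x ∉ ({v} : Set V) → y ∉ ({v} : Set V) →
      (G.Adj ((π v).symm x) ((π v).symm y) ↔ H.Adj x y) := fun x y hx hy =>
    (hypo_symm hH).adj v x y hx hy
  set q := π v v' with hq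
  have hqv : q ≠ v := ne_v hH hvv'
  have hqs : ¬ Sat H {v} q := by
    intro h
    have := gsat_map hSv' hadj' hqv h
    rw [hq, Equiv.symm_apply_apply] at this
    exact hnc this
  have hqK : (K H {v} q).card = (K G {v} v').card := by
    rw [hq, gK_map hSv hadj, card_image_of_injective _ (π v).injective]
  -- `q` is a twin of `v`
  have htw : Tw H ∅ v q := by
    by_contra hnt
    by_cases h1 : (K G ∅ v).card = 1
    · obtain ⟨t, ht⟩ := hfH q
      have ht' := mem_K.mp ht
      have htv : t ≠ v := by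
        rintro rfl
        exact hnt (tw_symm ht')
      have : t ∈ K H {v} q := mem_K.mpr (tw_single hqv htv ht')
      have := card_pos.mpr ⟨t, this⟩
      omega
    · have h2 : 2 ≤ (K G ∅ v).card := by
        have := card_pos.mpr (hfG v)
        omega
      have h3 := K_eq hH hV h2
      have h4 : 2 ≤ (K H ∅ v).card := by omega
      have hKq : K H {v} q = K H ∅ q := by
        rw [K_single hqv (fun y hy => no_only h4 hy.symm), erase_eq_of_notMem]
        intro h
        exact hnt (tw_symm (mem_K.mp h))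
      have h5 : (K H ∅ q).card < (K G ∅ v).card := by
        rw [← hKq]; omega
      have h6 : Sat H ∅ q := by
        by_contra h
        have := hmin q h
        omega
      obtain ⟨y, -, hy, hny, hD⟩ := h6
      -- a centre different from `v`
      obtain ⟨y', hy'v, hy', hD'⟩ : ∃ y', y' ≠ v ∧ y' ≠ q ∧ D H ∅ q y' = K H ∅ q := by
        by_cases hyv : y = v
        · subst hyv
          obtain ⟨w, hw⟩ := hfH y
          have hw' := mem_K.mp hw
          have hwq : w ≠ q := by
            rintro rfl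
            exact hnt hw'
          refine ⟨w, hw'.2.2.1.symm, hwq, ?_⟩
          have a1 := gD_map (H := H) (swap_mem hw'.1 hw'.2.1) (swap_auto hw')
            (notMem_empty q) (notMem_empty y)
          have a2 := gK_map (H := H) (swap_mem hw'.1 hw'.2.1) (swap_auto hw') q
          rw [Equiv.swap_apply_of_ne_of_ne hqv hwq.symm] at a1 a2
          rw [Equiv.swap_apply_left] at a1
          rw [a1, hD, ← a2]
        · exact ⟨y, hyv, hy, hD⟩
      apply hqs
      have hvK : v ∉ K H ∅ q := fun h => hnt (tw_symm (mem_K.mp h))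
      refine ⟨y', hy'v, hy', ?_, ?_⟩
      · intro h
        have := D_of_tw h
        rw [D_single, hD', erase_eq_of_notMem hvK] at this
        exact (hfH q).ne_empty this
      · rw [D_single, hD', hKq, erase_eq_of_notMem hvK]
  -- the type
  have hty : H.Adj v q ↔ G.Adj v v' := by
    have e1 := dg_card G v v'
    have e2 := dg_card H v q
    have e3 : dg H {v} q = dg G {v} v' := dg_map hH hvv'
    have e4 := dg_tw hv'
    have e5 := dg_tw htw
    have e6 := dg_eq hH (by omega) v
    rw [G.adj_comm v v', H.adj_comm v q]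
    by_cases a : G.Adj v' v <;> by_cases b : H.Adj q v <;> simp only [a, b, if_true, if_false] at e1 e2 ⊢
    · omega
    · omega
  exact glue (hH.fix v) rfl (fun y z hy hz => hH.adj v y z hy hz) hv' htw hty

/-- **Every vertex has a twin.** -/
theorem full_iso {G H : SimpleGraph V} {π : V → Equiv.Perm V} (hH : Hypo G H π)
    (hV : 10 ≤ Fintype.card V) (hfG : ∀ x, (K G ∅ x).Nonempty) : ¬ NonIso G H := by
  have hfH := full_of_full hH hV hfG
  obtain ⟨p⟩ : Nonempty V := by
    rw [← Fintype.card_pos_iff]; omega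
  have hex : ∃ m : ℕ, ∃ q, (¬ Sat G ∅ q ∧ (K G ∅ q).card = m) ∨
      (¬ Sat H ∅ q ∧ (K H ∅ q).card = m) := by
    obtain ⟨y, hy⟩ := exists_nonsat hfG p
    exact ⟨_, y, Or.inl ⟨hy, rfl⟩⟩
  obtain ⟨q, hq⟩ := Nat.find_spec hex
  have hmin := fun m (h : m < Nat.find hex) => Nat.find_min hex h
  rcases hq with ⟨h1, h2⟩ | ⟨h1, h2⟩
  · refine core hH hV hfG hfH q h1 (fun r hr => ?_)
    by_contra hlt
    push Not at hlt
    exact hmin (K H ∅ r).card (by omega) ⟨r, Or.inr ⟨hr, rfl⟩⟩
  · have h3 := core (hypo_symm hH) hV hfH hfG q h1 (fun r hr => by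
      by_contra hlt
      push Not at hlt
      exact hmin (K G ∅ r).card (by omega) ⟨r, Or.inl ⟨hr, rfl⟩⟩)
    intro hN
    apply h3
    rintro ⟨σ, hσ⟩
    apply hN
    refine ⟨σ.symm, fun x y => ?_⟩
    have := hσ (σ.symm x) (σ.symm y)
    rw [Equiv.apply_symm_apply, Equiv.apply_symm_apply] at this
    exact this.symm

end Pool.Agent.J4H89.TW
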