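import Pool.Agent.J4H89.TW.Count

set_option autoImplicit false
set_option linter.unusedSectionVars false

/-!
# The key identity: twins of corresponding vertices
-/

namespace Pool.Agent.J4H89.TW

open Finset Classical
open Pool.Agent.H234RC (Hypo NonIso Reconstructible)

variable {V : Type} [Fintype V]

theorem notMem_empty (x : V) : x ∉ (∅ : Set V) := Set.notMem_empty x

theorem tw_of_D {G : SimpleGraph V} {x y : V} (hxy : x ≠ y) (h : D G ∅ x y = ∅) : Tw G ∅ x y :=
  tw_iff.mpr ⟨notMem_empty x, notMem_empty y, hxy, h⟩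

theorem D_of_tw {G : SimpleGraph V} {S : Set V} {x y : V} (h : Tw G S x y) : D G S x y = ∅ :=
  (tw_iff.mp h).2.2.2

/-- the pairs in the card at `v` -/
theorem A_card (G : SimpleGraph V) (e : Prop) (v : V) :
    A G {v} e 0 + 2 * (T G ∅ e v).card = A G ∅ e 0 + nn G e v := by
  set P : Finset (V × V) := univ.filter (fun p : V × V => p.1 ≠ p.2 ∧ (G.Adj p.1 p.2 ↔ e)) with hP
  have hA0 : A G ∅ e 0 = (P.filter (fun p => D G ∅ p.1 p.2 = ∅)).card := by
    unfold A
    congr 1
    ext p
    simp only [mem_filter, mem_univ, true_and, hP, Set.mem_empty_iff_false, not_false_eq_true,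
      card_eq_zero]
  have hAv : A G {v} e 0 =
      (P.filter (fun p => (p.1 ≠ v ∧ p.2 ≠ v) ∧ (D G ∅ p.1 p.2).erase v = ∅)).card := by
    unfold A
    congr 1
    ext p
    simp only [mem_filter, mem_univ, true_and, hP, Set.mem_singleton_iff, D_single, card_eq_zero]
    tauto
  have hnn : nn G e v = (P.filter (fun p => D G ∅ p.1 p.2 = {v})).card := by
    unfold nn
    congr 1
    ext p
    simp only [mem_filter, mem_univ, true_and, hP]
  have hPm : ∀ p, p ∈ P ↔ (p.1 ≠ p.2 ∧ (G.Adj p.1 p.2 ↔ e)) := by intro p; simp [hP]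
  clear_value P
  obtain ⟨B, hB⟩ : ∃ B : Finset (V × V),
      B = P.filter (fun p => (p.1 ≠ v ∧ p.2 ≠ v) ∧ D G ∅ p.1 p.2 = ∅) := ⟨_, rfl⟩
  have hBm : ∀ p, p ∈ B ↔ p ∈ P ∧ (p.1 ≠ v ∧ p.2 ≠ v) ∧ D G ∅ p.1 p.2 = ∅ := by
    intro p; rw [hB, mem_filter]
  have h1 : A G {v} e 0 = B.card + nn G e v := by
    rw [hAv, hnn, ← card_union_of_disjoint]
    · congr 1
      ext p
      rw [mem_union, hBm, mem_filter, mem_filter]
      constructor
      · rintro ⟨hp, hne, h⟩
        by_cases hv : v ∈ D G ∅ p.1 p.2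
        · right
          refine ⟨hp, ?_⟩
          rw [← insert_erase hv, h]
          rfl
        · rw [erase_eq_of_notMem hv] at h
          exact Or.inl ⟨hp, hne, h⟩
      · rintro (⟨hp, hne, h⟩ | ⟨hp, h⟩)
        · exact ⟨hp, hne, by rw [h]; rfl⟩
        · have hv : v ∈ D G ∅ p.1 p.2 := by rw [h]; exact mem_singleton_self v
          obtain ⟨-, a, b, -⟩ := mem_D.mp hv
          exact ⟨hp, ⟨Ne.symm a, Ne.symm b⟩, by rw [h]; simp⟩
    · rw [disjoint_left]
      intro p hp hp'
      rw [hBm] at hp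
      rw [mem_filter, hp.2.2] at hp'
      exact (singleton_ne_empty v) hp'.2.symm
  have h2 : A G ∅ e 0 = B.card + 2 * (T G ∅ e v).card := by
    have h3 : P.filter (fun p => D G ∅ p.1 p.2 = ∅) =
        B ∪ ((T G ∅ e v).image (fun y => (v, y)) ∪ (T G ∅ e v).image (fun y => (y, v))) := by
      ext p
      rw [mem_filter, mem_union, mem_union, mem_image, mem_image, hBm, hPm]
      constructor
      · rintro ⟨hp, h⟩
        by_cases h1 : p.1 = v
        · right; left
          refine ⟨p.2, ?_, by rw [← h1]⟩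
          rw [mem_T, ← h1]
          exact ⟨tw_of_D hp.1 h, hp.2⟩
        · by_cases h2 : p.2 = v
          · right; right
            refine ⟨p.1, ?_, by rw [← h2]⟩
            rw [mem_T, ← h2]
            exact ⟨tw_symm (tw_of_D hp.1 h), by rw [G.adj_comm]; exact hp.2⟩
          · left
            exact ⟨hp, ⟨h1, h2⟩, h⟩
      · rintro (⟨hp, -, h⟩ | ⟨y, hy, rfl⟩ | ⟨y, hy, rfl⟩)
        · exact ⟨hp, h⟩
        · rw [mem_T] at hy
          exact ⟨⟨hy.1.2.2.1, hy.2⟩, D_of_tw hy.1⟩
        · rw [mem_T] at hy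
          exact ⟨⟨hy.1.2.2.1.symm, by rw [G.adj_comm]; exact hy.2⟩, D_of_tw (tw_symm hy.1)⟩
    rw [hA0, h3, card_union_of_disjoint, card_union_of_disjoint, card_image_of_injective,
      card_image_of_injective]
    · ring
    · intro a b h; exact (Prod.mk.inj h).1
    · intro a b h; exact (Prod.mk.inj h).2
    · rw [disjoint_left]
      intro p hp hp'
      rw [mem_image] at hp hp'
      obtain ⟨y, hy, rfl⟩ := hp
      obtain ⟨z, hz, h⟩ := hp'
      rw [mem_T] at hz
      exact hz.1.2.2.1 (Prod.mk.inj h).1.symm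
    · rw [disjoint_left]
      intro p hp hp'
      rw [hBm] at hp
      rw [mem_union, mem_image, mem_image] at hp'
      rcases hp' with ⟨y, _, rfl⟩ | ⟨y, _, rfl⟩
      · exact hp.2.1.1 rfl
      · exact hp.2.1.2 rfl
  rw [h1, h2]
  ring

/-- the key identity -/
theorem key {G H : SimpleGraph V} {π : V → Equiv.Perm V} (hH : Hypo G H π)
    (hV : 10 ≤ Fintype.card V) (e : Prop) (v : V) :
    2 * (T G ∅ e v).card + nn H e v = 2 * (T H ∅ e v).card + nn G e v := by
  have h1 := A_card G e v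
  have h2 := A_card H e v
  have h3 := A0_eq hH hV e
  have h4 := A_map hH e v 0
  omega

/-- a pair distinguished by `v` only contains all twins of `v`, so `v` has at most one twin -/
theorem nn_pos {G : SimpleGraph V} {e : Prop} {v : V} (h : nn G e v ≠ 0) :
    ∃ x y, x ≠ y ∧ (G.Adj x y ↔ e) ∧ D G ∅ x y = {v} := by
  unfold nn at h
  obtain ⟨p, hp⟩ := card_pos.mp (Nat.pos_of_ne_zero h)
  rw [mem_filter] at hp
  exact ⟨p.1, p.2, hp.2.1.1, hp.2.1.2, hp.2.2⟩

theorem only_twin {G : SimpleGraph V} {v x y t : V} (hxy : x ≠ y) (hD : D G ∅ x y = {v})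
    (ht : Tw G ∅ v t) : t = x ∨ t = y := by
  by_contra hcon
  push Not at hcon
  have hv : v ∈ D G ∅ x y := by rw [hD]; exact mem_singleton_self v
  obtain ⟨-, hvx, hvy, hd⟩ := mem_D.mp hv
  have h1 : t ∈ D G ∅ x y := by
    refine mem_D.mpr ⟨notMem_empty t, hcon.1, hcon.2, ?_⟩
    have a1 := ht.2.2.2 x (notMem_empty x) hvx.symm hcon.1.symm
    have a2 := ht.2.2.2 y (notMem_empty y) hvy.symm hcon.2.symm
    rw [G.adj_comm x t, G.adj_comm y t, ← a1, ← a2, G.adj_comm v x, G.adj_comm v y]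
    exact hd
  rw [hD, mem_singleton] at h1
  exact ht.2.2.1 h1.symm

theorem twin_unique {G : SimpleGraph V} {v x y t t' : V} (hxy : x ≠ y) (hD : D G ∅ x y = {v})
    (ht : Tw G ∅ v t) (ht' : Tw G ∅ v t') : t = t' := by
  by_contra hne
  have hv : v ∈ D G ∅ x y := by rw [hD]; exact mem_singleton_self v
  have h := tw_trans ht ht' hne
  have h1 : D G ∅ x y = ∅ := by
    rcases only_twin hxy hD ht with rfl | rfl
    · rcases only_twin hxy hD ht' with rfl | rfl
      · exact absurd rfl hne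
      · exact D_of_tw h
    · rcases only_twin hxy hD ht' with rfl | rfl
      · rw [D_comm]; exact D_of_tw h
      · exact absurd rfl hne
  rw [h1] at hv
  simp at hv

/-- all twins of a vertex -/
noncomputable def K (G : SimpleGraph V) (S : Set V) (x : V) : Finset V :=
  univ.filter (fun y => Tw G S x y)

theorem mem_K {G : SimpleGraph V} {S : Set V} {x y : V} : y ∈ K G S x ↔ Tw G S x y := by
  unfold K; simp

theorem nn_zero {G : SimpleGraph V} {v : V} (h : 2 ≤ (K G ∅ v).card) (e : Prop) : nn G e v = 0 := by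
  by_contra hne
  obtain ⟨x, y, hxy, -, hD⟩ := nn_pos hne
  obtain ⟨t, ht, t', ht', htt⟩ := one_lt_card.mp h
  exact htt (twin_unique hxy hD (mem_K.mp ht) (mem_K.mp ht'))

theorem T_sub_K (G : SimpleGraph V) (S : Set V) (e : Prop) (x : V) : T G S e x ⊆ K G S x := by
  intro y hy
  exact mem_K.mpr (mem_T.mp hy).1

theorem T_eq_K {G : SimpleGraph V} {S : Set V} {x t : V} {e : Prop} (ht : Tw G S x t)
    (he : G.Adj x t ↔ e) : T G S e x = K G S x := by
  apply Subset.antisymm (T_sub_K G S e x)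
  intro y hy
  have h1 := mem_K.mp hy
  refine mem_T.mpr ⟨h1, ?_⟩
  by_cases hyt : t = y
  · rw [← hyt]; exact he
  · exact ((tw_adj ht h1 hyt).1).symm.trans he

theorem T_add (G : SimpleGraph V) (S : Set V) (x : V) :
    (T G S True x).card + (T G S False x).card = (K G S x).card := by
  rw [← card_union_of_disjoint]
  · congr 1
    ext y
    rw [mem_union, mem_T, mem_T, mem_K]
    by_cases h : G.Adj x y <;> simp [h]
  · rw [disjoint_left]
    intro y hy hy'
    rw [mem_T] at hy hy'
    have h1 : G.Adj x y := hy.2.mpr trivial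
    exact hy'.2.mp h1

/-- two or more twins of type `e` -/
theorem T_eq {G H : SimpleGraph V} {π : V → Equiv.Perm V} (hH : Hypo G H π)
    (hV : 10 ≤ Fintype.card V) {e : Prop} {v : V} (h : 2 ≤ (T G ∅ e v).card) :
    (T H ∅ e v).card = (T G ∅ e v).card := by
  have h1 := key hH hV e v
  have h2 : nn G e v = 0 := nn_zero (h.trans (card_le_card (T_sub_K _ _ _ _))) e
  have h3 : 2 ≤ (T H ∅ e v).card := by omega
  have h4 : nn H e v = 0 := nn_zero (h3.trans (card_le_card (T_sub_K _ _ _ _))) e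
  omega

end Pool.Agent.J4H89.TW
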