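import Pool.Agent.J4H89.TW.Key

set_option autoImplicit false
set_option linter.unusedSectionVars false

/-!
# Isomorphisms, degrees, gluing
-/

namespace Pool.Agent.J4H89.TW

open Finset Classical
open Pool.Agent.H234RC (Hypo NonIso Reconstructible)

variable {V : Type} [Fintype V]

/-- `p` is a vertex of a satellite class of `G - S` -/
def Sat (G : SimpleGraph V) (S : Set V) (p : V) : Prop :=
  ∃ y, y ∉ S ∧ y ≠ p ∧ ¬ Tw G S p y ∧ D G S p y = K G S p

section gen

variable {G H : SimpleGraph V} {S : Set V} {τ : Equiv.Perm V} (hS : ∀ x, τ x ∈ S ↔ x ∈ S)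
  (hτ : ∀ x y, x ∉ S → y ∉ S → (H.Adj (τ x) (τ y) ↔ G.Adj x y))

include hS hτ

theorem gD_map {x y : V} (hx : x ∉ S) (hy : y ∉ S) :
    D H S (τ x) (τ y) = (D G S x y).image τ := by
  ext z
  rw [mem_D, mem_image]
  constructor
  · rintro ⟨h1, h2, h3, h4⟩
    have hz : τ.symm z ∉ S := fun h => h1 (by
      have := (hS (τ.symm z)).mpr h
      rwa [Equiv.apply_symm_apply] at this)
    refine ⟨τ.symm z, mem_D.mpr ⟨hz, ?_, ?_, ?_⟩, Equiv.apply_symm_apply _ _⟩
    · intro h; exact h2 (by rw [← h, Equiv.apply_symm_apply])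
    · intro h; exact h3 (by rw [← h, Equiv.apply_symm_apply])
    · intro h
      apply h4
      rw [← hτ x _ hx hz, ← hτ y _ hy hz, Equiv.apply_symm_apply] at h
      exact h
  · rintro ⟨w, hw, rfl⟩
    obtain ⟨h1, h2, h3, h4⟩ := mem_D.mp hw
    refine ⟨fun h => h1 ((hS w).mp h), fun h => h2 (τ.injective h), fun h => h3 (τ.injective h), ?_⟩
    rw [hτ x w hx h1, hτ y w hy h1]
    exact h4

theorem gtw_map {x y : V} : Tw H S (τ x) (τ y) ↔ Tw G S x y := by
  rw [tw_iff, tw_iff, hS, hS]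
  constructor
  · rintro ⟨hx, hy, h3, h4⟩
    rw [gD_map hS hτ hx hy, image_eq_empty] at h4
    exact ⟨hx, hy, fun h => h3 (by rw [h]), h4⟩
  · rintro ⟨hx, hy, h3, h4⟩
    refine ⟨hx, hy, fun h => h3 (τ.injective h), ?_⟩
    rw [gD_map hS hτ hx hy, h4, image_empty]

theorem gK_map (x : V) : K H S (τ x) = (K G S x).image τ := by
  ext z
  rw [mem_K, mem_image]
  constructor
  · intro h
    refine ⟨τ.symm z, ?_, Equiv.apply_symm_apply _ _⟩
    rw [mem_K, ← gtw_map hS hτ, Equiv.apply_symm_apply]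
    exact h
  · rintro ⟨w, hw, rfl⟩
    exact (gtw_map hS hτ).mpr (mem_K.mp hw)

theorem gsat_map {x : V} (hx : x ∉ S) (h : Sat G S x) : Sat H S (τ x) := by
  obtain ⟨y, hy, hne, hn, hD⟩ := h
  refine ⟨τ y, fun h => hy ((hS y).mp h), fun h => hne (τ.injective h), ?_, ?_⟩
  · rw [gtw_map hS hτ]; exact hn
  · rw [gD_map hS hτ hx hy, gK_map hS hτ, hD]

end gen

/-- exchanging two twins -/
theorem swap_auto {G : SimpleGraph V} {S : Set V} {p q : V} (h : Tw G S p q) (x y : V) (hx : x ∉ S)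
    (hy : y ∉ S) : G.Adj (Equiv.swap p q x) (Equiv.swap p q y) ↔ G.Adj x y := by
  obtain ⟨hp, hq, hpq, hz⟩ := h
  by_cases hxp : x = p
  · subst hxp
    rw [Equiv.swap_apply_left]
    by_cases hyp : y = x
    · subst hyp; rw [Equiv.swap_apply_left]; simp
    · by_cases hyq : y = q
      · subst hyq; rw [Equiv.swap_apply_right, G.adj_comm]
      · rw [Equiv.swap_apply_of_ne_of_ne hyp hyq]
        exact (hz y hy hyp hyq).symm
  · by_cases hxq : x = q
    · subst hxq
      rw [Equiv.swap_apply_right]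
      by_cases hyp : y = p
      · subst hyp; rw [Equiv.swap_apply_left, G.adj_comm]
      · by_cases hyq : y = x
        · subst hyq; rw [Equiv.swap_apply_right]; simp
        · rw [Equiv.swap_apply_of_ne_of_ne hyp hyq]
          exact hz y hy hyp hyq
    · rw [Equiv.swap_apply_of_ne_of_ne hxp hxq]
      by_cases hyp : y = p
      · subst hyp
        rw [Equiv.swap_apply_left, G.adj_comm x q, G.adj_comm x y]
        exact (hz x hx hxp hxq).symm
      · by_cases hyq : y = q
        · subst hyq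
          rw [Equiv.swap_apply_right, G.adj_comm x p, G.adj_comm x y]
          exact hz x hx hxp hxq
        · rw [Equiv.swap_apply_of_ne_of_ne hyp hyq]

theorem swap_mem {S : Set V} {p q : V} (hp : p ∉ S) (hq : q ∉ S) (x : V) :
    Equiv.swap p q x ∈ S ↔ x ∈ S := by
  by_cases h1 : x = p
  · subst h1; rw [Equiv.swap_apply_left]; exact iff_of_false hq hp
  · by_cases h2 : x = q
    · subst h2; rw [Equiv.swap_apply_right]; exact iff_of_false hp hq
    · rw [Equiv.swap_apply_of_ne_of_ne h1 h2]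

theorem sat_class {G : SimpleGraph V} {S : Set V} {p q : V} (h : Tw G S p q) (hs : Sat G S p) :
    Sat G S q := by
  have := gsat_map (H := G) (swap_mem h.1 h.2.1) (swap_auto h) h.1 hs
  rwa [Equiv.swap_apply_left] at this

/-- centres of satellites are not satellites -/
theorem exists_nonsat {G : SimpleGraph V} (hfull : ∀ x, (K G ∅ x).Nonempty) (p : V) :
    ∃ y, ¬ Sat G ∅ y := by
  by_cases hp : Sat G ∅ p
  swap
  · exact ⟨p, hp⟩
  obtain ⟨y, -, hyp, hny, hD⟩ := hp
  refine ⟨y, ?_⟩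
  rintro ⟨z, -, hzy, hnz, hD'⟩
  obtain ⟨t, ht⟩ := hfull p
  obtain ⟨u, hu⟩ := hfull y
  have htD : t ∈ D G ∅ p y := by rw [hD]; exact ht
  have huD : u ∈ D G ∅ y z := by rw [hD']; exact hu
  have ht' := mem_K.mp ht
  have hu' := mem_K.mp hu
  obtain ⟨-, htp, hty, htd⟩ := mem_D.mp htD
  obtain ⟨-, huy, huz, hud⟩ := mem_D.mp huD
  -- `p ~ y` iff `t ~ y`
  have a1 : G.Adj p y ↔ G.Adj t y := ht'.2.2.2 y (notMem_empty y) hyp hty.symm
  have hup : u ≠ p := by
    rintro rfl
    exact hny (tw_symm hu')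
  have huK : u ∉ K G ∅ p := by
    intro h
    exact hny (tw_trans (tw_symm (mem_K.mp h)) (tw_symm hu') hyp.symm)
  have a2 : G.Adj p u ↔ G.Adj y u := by
    by_contra hc
    exact huK (hD ▸ mem_D.mpr ⟨notMem_empty u, hup, huy, hc⟩)
  have a3 : G.Adj y p ↔ G.Adj u p := hu'.2.2.2 p (notMem_empty p) hyp.symm hup.symm
  have hpK : p ∉ K G ∅ y := fun h => hny (tw_symm (mem_K.mp h))
  -- `y ~ z` iff `y ~ p`
  have a4 : G.Adj y z ↔ G.Adj y p := by
    by_cases hzp : z = p
    · rw [hzp]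
    · by_cases hzK : z ∈ K G ∅ p
      · have h1 := (mem_K.mp hzK).2.2.2 y (notMem_empty y) hyp hzy.symm
        rw [G.adj_comm y z, G.adj_comm y p]
        exact h1.symm
      · have h1 : G.Adj p z ↔ G.Adj y z := by
          by_contra hc
          exact hzK (hD ▸ mem_D.mpr ⟨notMem_empty z, hzp, hzy, hc⟩)
        have h2 : G.Adj y p ↔ G.Adj z p := by
          by_contra hc
          exact hpK (hD' ▸ mem_D.mpr ⟨notMem_empty p, hyp.symm, Ne.symm hzp, hc⟩)
        rw [← h1, h2, G.adj_comm p z]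
  have a5 : G.Adj y z ↔ G.Adj u z := hu'.2.2.2 z (notMem_empty z) hzy huz.symm
  apply hud
  rw [← a2, G.adj_comm p u, ← a3, ← a4, a5, G.adj_comm u z]

/-- gluing -/
theorem glue {G H : SimpleGraph V} {τ : Equiv.Perm V} {v v' q : V} (h1 : τ v = v) (h2 : τ v' = q)
    (h3 : ∀ y z, y ≠ v → z ≠ v → (H.Adj (τ y) (τ z) ↔ G.Adj y z)) (hG : Tw G ∅ v v')
    (hH : Tw H ∅ v q) (hty : H.Adj v q ↔ G.Adj v v') : ¬ NonIso G H := by
  intro hN
  apply hN
  refine ⟨τ, ?_⟩
  have core : ∀ z, z ≠ v → (H.Adj v (τ z) ↔ G.Adj v z) := by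
    intro z hz
    by_cases hz' : z = v'
    · rw [hz', h2]; exact hty
    · have hq : τ z ≠ q := fun h => hz' (τ.injective (h.trans h2.symm))
      have hv : τ z ≠ v := fun h => hz (τ.injective (h.trans h1.symm))
      rw [hH.2.2.2 _ (notMem_empty _) hv hq, ← h2, h3 v' z hG.2.2.1.symm hz]
      exact (hG.2.2.2 z (notMem_empty z) hz hz').symm
  intro y z
  by_cases hy : y = v
  · by_cases hz : z = v
    · rw [hy, hz]; simp
    · rw [hy, h1]; exact core z hz
  · by_cases hz : z = v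
    · rw [hz, h1, H.adj_comm, G.adj_comm y v]; exact core y hy
    · exact h3 y z hy hz

/-! ### Degrees -/

/-- the neighbours in `G - S` -/
noncomputable def NB (G : SimpleGraph V) (S : Set V) (x : V) : Finset V :=
  univ.filter (fun y => y ∉ S ∧ G.Adj x y)

theorem mem_NB {G : SimpleGraph V} {S : Set V} {x y : V} : y ∈ NB G S x ↔ y ∉ S ∧ G.Adj x y := by
  unfold NB; simp

/-- the degree in `G - S` -/
noncomputable def dg (G : SimpleGraph V) (S : Set V) (x : V) : ℕ := (NB G S x).card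

theorem dg_card (G : SimpleGraph V) (v x : V) :
    dg G {v} x + (if G.Adj x v then 1 else 0) = dg G ∅ x := by
  unfold dg
  have h1 : NB G {v} x = (NB G ∅ x).erase v := by
    ext y
    rw [mem_NB, mem_erase, mem_NB]
    simp only [Set.mem_singleton_iff, Set.mem_empty_iff_false, not_false_eq_true, true_and]
  rw [h1]
  split_ifs with h
  · have h2 : v ∈ NB G ∅ x := mem_NB.mpr ⟨notMem_empty v, h⟩
    rw [card_erase_of_mem h2]
    have := card_pos.mpr ⟨v, h2⟩
    omega
  · rw [erase_eq_of_notMem]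
    · rfl
    · intro h2; exact h (mem_NB.mp h2).2

theorem dg_map {G H : SimpleGraph V} {π : V → Equiv.Perm V} (hH : Hypo G H π) {v x : V}
    (hx : x ≠ v) : dg H {v} (π v x) = dg G {v} x := by
  unfold dg
  symm
  apply card_bij (fun y _ => π v y)
  · intro y hy
    rw [mem_NB] at hy ⊢
    have hy1 : y ≠ v := hy.1
    exact ⟨ne_v hH hy1, by rw [hH.adj v x y hx hy1]; exact hy.2⟩
  · intro a _ b _ h; exact (π v).injective h
  · intro z hz
    rw [mem_NB] at hz
    have hz' : (π v).symm z ≠ v := fun h => hz.1 (by rw [ne_v' hH h]; rfl)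
    refine ⟨(π v).symm z, ?_, Equiv.apply_symm_apply _ _⟩
    rw [mem_NB]
    refine ⟨hz', ?_⟩
    rw [← hH.adj v x _ hx hz', Equiv.apply_symm_apply]
    exact hz.2

theorem sum_ind (G : SimpleGraph V) (v : V) :
    ∑ x : V, (if G.Adj x v then 1 else 0) = dg G ∅ v := by
  rw [← card_filter]
  unfold dg
  congr 1
  ext x
  rw [mem_filter, mem_NB, G.adj_comm]
  simp

theorem E_card (G : SimpleGraph V) (v : V) :
    ∑ x ∈ univ.erase v, dg G {v} x + 2 * dg G ∅ v = ∑ x : V, dg G ∅ x := by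
  have h1 : ∑ x : V, dg G ∅ x = dg G ∅ v + ∑ x ∈ univ.erase v, dg G ∅ x :=
    (add_sum_erase univ _ (mem_univ v)).symm
  have h2 : ∑ x ∈ univ.erase v, dg G ∅ x =
      ∑ x ∈ univ.erase v, dg G {v} x + ∑ x ∈ univ.erase v, (if G.Adj x v then 1 else 0) := by
    rw [← sum_add_distrib]
    exact sum_congr rfl fun x _ => (dg_card G v x).symm
  have h3 : ∑ x ∈ univ.erase v, (if G.Adj x v then 1 else 0) = dg G ∅ v := by
    rw [← sum_ind G v, ← add_sum_erase univ _ (mem_univ v)]
    simp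
  rw [h1, h2, h3]
  ring

theorem E_map {G H : SimpleGraph V} {π : V → Equiv.Perm V} (hH : Hypo G H π) (v : V) :
    ∑ x ∈ univ.erase v, dg G {v} x = ∑ x ∈ univ.erase v, dg H {v} x := by
  apply sum_bij (fun x _ => π v x)
  · intro x hx
    rw [mem_erase] at hx ⊢
    exact ⟨ne_v hH hx.1, mem_univ _⟩
  · intro a _ b _ h; exact (π v).injective h
  · intro z hz
    rw [mem_erase] at hz
    refine ⟨(π v).symm z, ?_, Equiv.apply_symm_apply _ _⟩
    rw [mem_erase]
    exact ⟨fun h => hz.1 (ne_v' hH h), mem_univ _⟩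
  · intro x hx
    rw [mem_erase] at hx
    exact (dg_map hH hx.1).symm

theorem dg_eq {G H : SimpleGraph V} {π : V → Equiv.Perm V} (hH : Hypo G H π)
    (hV : 3 ≤ Fintype.card V) (v : V) : dg G ∅ v = dg H ∅ v := by
  have hG : ∑ w : V, ∑ x ∈ univ.erase w, dg G {w} x + 2 * ∑ x : V, dg G ∅ x =
      Fintype.card V * ∑ x : V, dg G ∅ x := by
    rw [mul_sum, ← sum_add_distrib, sum_congr rfl (fun w _ => E_card G w), sum_const, card_univ,
      smul_eq_mul]
  have hHs : ∑ w : V, ∑ x ∈ univ.erase w, dg H {w} x + 2 * ∑ x : V, dg H ∅ x =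
      Fintype.card V * ∑ x : V, dg H ∅ x := by
    rw [mul_sum, ← sum_add_distrib, sum_congr rfl (fun w _ => E_card H w), sum_const, card_univ,
      smul_eq_mul]
  rw [sum_congr rfl (fun w _ => E_map hH w)] at hG
  obtain ⟨m, hm⟩ : ∃ m, Fintype.card V = m + 3 := ⟨Fintype.card V - 3, by omega⟩
  rw [hm] at hG hHs
  have hE : ∑ x : V, dg G ∅ x = ∑ x : V, dg H ∅ x := by
    have h1 : (m + 1) * ∑ x : V, dg G ∅ x = (m + 1) * ∑ x : V, dg H ∅ x := by
      nlinarith
    exact Nat.eq_of_mul_eq_mul_left (Nat.succ_pos m) h1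
  have h1 := E_card G v
  have h2 := E_card H v
  rw [E_map hH v, hE] at h1
  omega

theorem dg_tw {G : SimpleGraph V} {p q : V} (h : Tw G ∅ p q) : dg G ∅ p = dg G ∅ q := by
  unfold dg
  apply card_bij (fun y _ => Equiv.swap p q y)
  · intro y hy
    rw [mem_NB] at hy ⊢
    refine ⟨notMem_empty _, ?_⟩
    have := swap_auto h p y (notMem_empty _) (notMem_empty _)
    rw [Equiv.swap_apply_left] at this
    rw [this]; exact hy.2
  · intro a _ b _ h; exact (Equiv.swap p q).injective h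
  · intro z hz
    rw [mem_NB] at hz
    refine ⟨Equiv.swap p q z, ?_, Equiv.swap_apply_self _ _ _⟩
    rw [mem_NB]
    refine ⟨notMem_empty _, ?_⟩
    have := swap_auto h q z (notMem_empty _) (notMem_empty _)
    rw [Equiv.swap_apply_right] at this
    rw [this]; exact hz.2

end Pool.Agent.J4H89.TW
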