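import Pool.Agent.J4H89.TW.Fin

set_option autoImplicit false
set_option linter.unusedSectionVars false

/-!
# The theorem on twins, with elementary definitions
-/

namespace Pool.Agent.J4H89.TW

open Finset Classical

/-- `x` and `y` are twins. -/
def Twins {V : Type} (G : SimpleGraph V) (x y : V) : Prop :=
  x ≠ y ∧ ∀ z, z ≠ x → z ≠ y → (G.Adj x z ↔ G.Adj y z)

/-- `x` and `y` are twins in `G - v`. -/
def TwinsOff {V : Type} (G : SimpleGraph V) (v x y : V) : Prop :=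
  x ≠ v ∧ y ≠ v ∧ x ≠ y ∧ ∀ z, z ≠ v → z ≠ x → z ≠ y → (G.Adj x z ↔ G.Adj y z)

/-- `x` and `y` are seen alike in `G - v`. -/
def SeenAlike {V : Type} (G : SimpleGraph V) (v x y : V) : Prop :=
  {z | TwinsOff G v x z ∧ G.Adj x z}.ncard = {z | TwinsOff G v y z ∧ G.Adj y z}.ncard ∧
  {z | TwinsOff G v x z ∧ ¬ G.Adj x z}.ncard = {z | TwinsOff G v y z ∧ ¬ G.Adj y z}.ncard ∧
  ∀ d : ℕ, {z | z ≠ v ∧ G.Adj x z ∧ {u | u ≠ v ∧ G.Adj z u}.ncard = d}.ncard =
    {z | z ≠ v ∧ G.Adj y z ∧ {u | u ≠ v ∧ G.Adj z u}.ncard = d}.ncard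

theorem twz_iff {V : Type} {G : SimpleGraph V} {x y : V} : Tw G ∅ x y ↔ Twins G x y := by
  unfold Tw Twins
  simp

theorem two_iff {V : Type} {G : SimpleGraph V} {v x y : V} : Tw G {v} x y ↔ TwinsOff G v x y := by
  unfold Tw TwinsOff
  simp only [Set.mem_singleton_iff, ne_eq]

variable {V : Type} [Fintype V]

theorem T_ncard (G : SimpleGraph V) (e : Prop) (x : V) :
    {y | Twins G x y ∧ (G.Adj x y ↔ e)}.ncard = (T G ∅ e x).card := by
  rw [← Set.ncard_coe_finset]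
  congr 1
  ext y
  rw [mem_coe, mem_T, twz_iff]
  exact Iff.rfl

theorem To_ncard (G : SimpleGraph V) (v : V) (e : Prop) (x : V) :
    {y | TwinsOff G v x y ∧ (G.Adj x y ↔ e)}.ncard = (T G {v} e x).card := by
  rw [← Set.ncard_coe_finset]
  congr 1
  ext y
  rw [mem_coe, mem_T, two_iff]
  exact Iff.rfl

theorem dg_ncard (G : SimpleGraph V) (v z : V) :
    {u | u ≠ v ∧ G.Adj z u}.ncard = dg G {v} z := by
  unfold dg
  rw [← Set.ncard_coe_finset]
  congr 1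
  ext y
  rw [mem_coe, mem_NB, Set.mem_singleton_iff]
  exact Iff.rfl

theorem nS_ncard (G : SimpleGraph V) (v x : V) (d : ℕ) :
    {z | z ≠ v ∧ G.Adj x z ∧ {u | u ≠ v ∧ G.Adj z u}.ncard = d}.ncard = (nS G v x d).card := by
  rw [← Set.ncard_coe_finset]
  congr 1
  ext y
  rw [mem_coe, mem_nS, Set.mem_ofPred_eq, dg_ncard]

theorem same_of {G : SimpleGraph V} {v x y : V} (h : Same G v x y) : SeenAlike G v x y := by
  obtain ⟨h1, h2, h3⟩ := h
  rw [← To_ncard, ← To_ncard] at h1 h2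
  refine ⟨?_, ?_, fun d => ?_⟩
  · simpa only [iff_true] using h1
  · simpa only [iff_false] using h2
  · rw [nS_ncard, nS_ncard]
    exact h3 d

/-- **Twins**, elementary form. -/
theorem part_C (G : SimpleGraph V) (hV : 10 ≤ Fintype.card V) :
    (∀ v v' : V, Twins G v v' → (∀ x y, TwinsOff G v x y → Twins G x y) →
      (∀ x, x ≠ v → SeenAlike G v x v' → ∃ σ : Equiv.Perm V, σ v = v ∧ σ v' = x ∧
        ∀ y z, y ≠ v → z ≠ v → (G.Adj (σ y) (σ z) ↔ G.Adj y z)) →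
      Pool.Agent.H234RC.Reconstructible G) ∧
    (∀ (e : Prop) (k : ℕ), 2 ≤ k → (∃ v, {y | Twins G v y ∧ (G.Adj v y ↔ e)}.ncard = k) →
      (∀ x, {y | Twins G x y ∧ (G.Adj x y ↔ e)}.ncard ≠ k - 1) →
      Pool.Agent.H234RC.Reconstructible G) ∧
    ((∀ x, ∃ y, Twins G x y) → Pool.Agent.H234RC.Reconstructible G) := by
  obtain ⟨h1, h2, h3⟩ := t_TW G hV
  refine ⟨fun v v' htw hno hQ => ?_, fun e k hk hex hnone => ?_, fun hall => ?_⟩
  · refine h1 v v' (twz_iff.mpr htw) (fun x y hxy hD => ?_) (fun x hx hS => hQ x hx (same_of hS))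
    have hv : v ∈ D G ∅ x y := by rw [hD]; exact mem_singleton_self v
    have hoff : ∀ z, z ≠ v → z ≠ x → z ≠ y → (G.Adj x z ↔ G.Adj y z) := by
      intro z hzv hzx hzy
      by_contra hc
      have : z ∈ D G ∅ x y := mem_D.mpr ⟨fun h => h, hzx, hzy, hc⟩
      rw [hD, mem_singleton] at this
      exact hzv this
    obtain ⟨-, hvx, hvy, hva⟩ := mem_D.mp hv
    exact hva ((hno x y ⟨hvx.symm, hvy.symm, hxy, hoff⟩).2 v hvx hvy)
  · apply h2 e k hk
    · obtain ⟨v, hv⟩ := hex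
      exact ⟨v, by rw [← T_ncard]; exact hv⟩
    · intro x
      rw [← T_ncard]
      exact hnone x
  · apply h3
    intro x
    obtain ⟨y, hy⟩ := hall x
    exact ⟨y, twz_iff.mpr hy⟩

end Pool.Agent.J4H89.TW
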